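import Mathlib

/-!
# Linear independence of the functions `ξ ↦ |⟨ξ, v⟩| ^ p`
-/

set_option autoImplicit false

open Topology Filter Set
open scoped InnerProductSpace RealInnerProductSpace

namespace Pool.Agent.Lib.P23d34e

/-- A nonzero multiple of `|t| ^ p` is analytic at `0` only when `p` is an even integer. -/
lemma even_of_analyticAt {p c : ℝ} (hc : c ≠ 0)
    (h : AnalyticAt ℝ (fun t : ℝ => c * |t| ^ p) 0) : ∃ k : ℕ, p = 2 * k := by
  have hne : ¬ ∀ᶠ t in 𝓝 (0 : ℝ), c * |t| ^ p = 0 := by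
    intro h0
    have h1 : ∀ᶠ t in 𝓝[>] (0 : ℝ), c * |t| ^ p = 0 := h0.filter_mono nhdsWithin_le_nhds
    obtain ⟨t, ht, ht0⟩ := (h1.and self_mem_nhdsWithin).exists
    have ht0' : (0 : ℝ) < t := ht0
    have : 0 < |t| ^ p := Real.rpow_pos_of_pos (abs_pos.2 ht0'.ne') p
    rcases mul_eq_zero.1 ht with h2 | h2
    · exact hc h2
    · exact this.ne' h2
  obtain ⟨n, g, hg, hg0, hfg⟩ := h.exists_eventuallyEq_pow_smul_nonzero_iff.2 hne
  have hgc : Tendsto g (𝓝 0) (𝓝 (g 0)) := hg.continuousAt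
  -- on the right
  have hr : ∀ᶠ t in 𝓝[>] (0 : ℝ), c * t ^ p = t ^ n * g t := by
    filter_upwards [hfg.filter_mono nhdsWithin_le_nhds, self_mem_nhdsWithin] with t ht ht0
    rw [abs_of_pos (show (0 : ℝ) < t from ht0), sub_zero, smul_eq_mul] at ht
    exact ht
  have hgr : Tendsto g (𝓝[>] 0) (𝓝 (g 0)) := hgc.mono_left nhdsWithin_le_nhds
  have hpn : p = n := by
    rcases lt_trichotomy p n with hlt | heq | hgt
    · exfalso
      -- `c = t^(n-p) g t → 0`
      have h1 : ∀ᶠ t in 𝓝[>] (0 : ℝ), c = t ^ ((n : ℝ) - p) * g t := by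
        filter_upwards [hr, self_mem_nhdsWithin] with t ht ht0
        have ht0' : (0 : ℝ) < t := ht0
        rw [Real.rpow_sub ht0', Real.rpow_natCast]
        have := Real.rpow_pos_of_pos ht0' p
        field_simp
        linarith
      have h2 : Tendsto (fun t : ℝ => t ^ ((n : ℝ) - p) * g t) (𝓝[>] 0) (𝓝 (0 * g 0)) := by
        apply Tendsto.mul _ hgr
        have h3 : ContinuousAt (fun t : ℝ => t ^ ((n : ℝ) - p)) 0 :=
          Real.continuousAt_rpow_const _ _ (Or.inr (by linarith))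
        have h4 := h3.tendsto
        rw [Real.zero_rpow (by linarith)] at h4
        exact h4.mono_left nhdsWithin_le_nhds
      have h5 : Tendsto (fun _ : ℝ => c) (𝓝[>] 0) (𝓝 (0 * g 0)) := h2.congr' (h1.mono fun t ht => ht.symm)
      have h6 := tendsto_nhds_unique h5 tendsto_const_nhds
      rw [zero_mul] at h6
      exact hc h6.symm
    · exact heq
    · exfalso
      have h1 : ∀ᶠ t in 𝓝[>] (0 : ℝ), g t = c * t ^ (p - (n : ℝ)) := by
        filter_upwards [hr, self_mem_nhdsWithin] with t ht ht0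
        have ht0' : (0 : ℝ) < t := ht0
        rw [Real.rpow_sub ht0', Real.rpow_natCast]
        have : (0 : ℝ) < t ^ n := by positivity
        field_simp
        linarith
      have h2 : Tendsto (fun t : ℝ => c * t ^ (p - (n : ℝ))) (𝓝[>] 0) (𝓝 (c * 0)) := by
        apply Tendsto.mul tendsto_const_nhds
        have h3 : ContinuousAt (fun t : ℝ => t ^ (p - (n : ℝ))) 0 :=
          Real.continuousAt_rpow_const _ _ (Or.inr (by linarith))
        have h4 := h3.tendsto
        rw [Real.zero_rpow (by linarith)] at h4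
        exact h4.mono_left nhdsWithin_le_nhds
      have h5 : Tendsto g (𝓝[>] 0) (𝓝 (c * 0)) := h2.congr' (h1.mono fun t ht => ht.symm)
      have h6 := tendsto_nhds_unique h5 hgr
      rw [mul_zero] at h6
      exact hg0 h6.symm
  -- parity
  have hpar : ∀ᶠ t in 𝓝[>] (0 : ℝ), g t = (-1) ^ n * g (-t) := by
    have h1 : ∀ᶠ t in 𝓝 (0 : ℝ), c * |(-t)| ^ p = (-t - 0) ^ n • g (-t) := by
      have h2 : Tendsto (fun t : ℝ => -t) (𝓝 0) (𝓝 0) := by
        simpa using (continuous_neg (G := ℝ)).tendsto 0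
      exact h2.eventually hfg
    filter_upwards [hfg.filter_mono nhdsWithin_le_nhds, h1.filter_mono nhdsWithin_le_nhds,
      self_mem_nhdsWithin] with t ht1 ht2 ht0
    have ht0' : (0 : ℝ) < t := ht0
    rw [abs_neg, sub_zero, smul_eq_mul] at ht2
    rw [sub_zero, smul_eq_mul] at ht1
    have h3 : t ^ n * g t = t ^ n * ((-1) ^ n * g (-t)) := by
      rw [← ht1, ht2, neg_pow]
      ring
    exact mul_left_cancel₀ (pow_ne_zero n ht0'.ne') h3
  have h7 : Tendsto (fun t : ℝ => (-1) ^ n * g (-t)) (𝓝[>] 0) (𝓝 ((-1) ^ n * g 0)) := by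
    apply Tendsto.mul tendsto_const_nhds
    have h2 : Tendsto (fun t : ℝ => -t) (𝓝[>] 0) (𝓝 0) := by
      have := (continuous_neg (G := ℝ)).tendsto 0
      rw [neg_zero] at this
      exact this.mono_left nhdsWithin_le_nhds
    exact hgc.comp h2
  have h8 : g 0 = (-1) ^ n * g 0 :=
    tendsto_nhds_unique hgr (h7.congr' (hpar.mono fun t ht => ht.symm))
  have h9 : Even n := by
    by_contra hodd
    rw [Nat.not_even_iff_odd] at hodd
    rw [hodd.neg_one_pow] at h8
    apply hg0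
    linarith
  obtain ⟨k, hk⟩ := h9
  refine ⟨k, ?_⟩
  rw [hpn, hk]
  push_cast
  ring

lemma analyticAt_abs_rpow {a b p : ℝ} (ha : a ≠ 0) :
    AnalyticAt ℝ (fun t : ℝ => |a + t * b| ^ p) 0 := by
  have h1 : AnalyticAt ℝ (fun t : ℝ => a + t * b) 0 :=
    analyticAt_const.add (analyticAt_id.mul analyticAt_const)
  have h2 : AnalyticAt ℝ (fun t : ℝ => Real.exp (Real.log ((a + t * b) ^ 2) * (p / 2))) 0 := by
    apply AnalyticAt.comp (g := Real.exp) analyticAt_rexp
    apply AnalyticAt.mul _ analyticAt_const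
    apply AnalyticAt.log
    · exact h1.pow 2
    · simp only [zero_mul, add_zero]
      positivity
  refine h2.congr ?_
  have h3 : ∀ᶠ t in 𝓝 (0 : ℝ), a + t * b ≠ 0 := by
    apply h1.continuousAt.eventually_ne
    simpa using ha
  filter_upwards [h3] with t ht
  rw [Real.rpow_def_of_pos (abs_pos.2 ht)]
  congr 1
  rw [← sq_abs, Real.log_pow]
  push_cast
  ring

variable {E : Type*} [NormedAddCommGroup E] [InnerProductSpace ℝ E]

/-- a vector orthogonal to `w` and to none of the vectors of a finite set avoiding `ℝ w` -/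
lemma exists_orth {D : Finset E} {w : E} (hD : ∀ v ∈ D, ∀ c : ℝ, v ≠ c • w) :
    ∃ ξ : E, ⟪ξ, w⟫ = 0 ∧ ∀ v ∈ D, ⟪ξ, v⟫ ≠ 0 := by
  classical
  let M : Submodule ℝ E := (ℝ ∙ w)ᗮ
  let S : Finset (Subspace ℝ M) := D.image fun v => LinearMap.ker ((innerₛₗ ℝ v).comp M.subtype)
  have hS : ⊤ ∉ S := by
    intro hT
    obtain ⟨v, hv, hT⟩ := Finset.mem_image.1 hT
    have h1 : ∀ x ∈ M, ⟪v, x⟫ = 0 := by
      intro x hx
      have h2 : (⟨x, hx⟩ : M) ∈ LinearMap.ker ((innerₛₗ ℝ v).comp M.subtype) := by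
        rw [hT]; trivial
      simpa using h2
    have h3 : v ∈ Mᗮ := by
      rw [Submodule.mem_orthogonal']
      exact h1
    have h4 : Mᗮ = ℝ ∙ w := Submodule.orthogonal_orthogonal _
    rw [h4, Submodule.mem_span_singleton] at h3
    obtain ⟨c, hc⟩ := h3
    exact hD v hv c hc.symm
  have h5 := Subspace.biUnion_ne_univ_of_top_notMem hS
  rw [Set.ne_univ_iff_exists_notMem] at h5
  obtain ⟨x, hx⟩ := h5
  refine ⟨x, ?_, ?_⟩
  · have := x.2
    rw [Submodule.mem_orthogonal_singleton_iff_inner_left] at this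
    exact this
  · intro v hv h0
    apply hx
    rw [Set.mem_iUnion₂]
    refine ⟨_, Finset.mem_image_of_mem _ hv, ?_⟩
    show x ∈ LinearMap.ker ((innerₛₗ ℝ v).comp M.subtype)
    rw [LinearMap.mem_ker]
    simpa [real_inner_comm] using h0

/-- The functions `ξ ↦ |⟨ξ, v⟩| ^ p`, `v` in a finite set of pairwise non-proportional vectors, are
linearly independent when `p` is not an even integer. -/
theorem indep {p : ℝ} (hpe : ∀ k : ℕ, p ≠ 2 * k) {D : Finset E}
    (h0 : ∀ v ∈ D, v ≠ 0) (hD : ∀ v ∈ D, ∀ w ∈ D, v ≠ w → ∀ c : ℝ, v ≠ c • w) (lam : E → ℝ)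
    (h : ∀ ξ : E, ∑ v ∈ D, lam v * |⟪ξ, v⟫| ^ p = 0) : ∀ v ∈ D, lam v = 0 := by
  classical
  intro w hw
  by_contra hl
  obtain ⟨ξ₀, hξw, hξ⟩ := exists_orth (D := D.erase w) (w := w)
    (fun v hv c => hD v (Finset.mem_of_mem_erase hv) w hw (Finset.ne_of_mem_erase hv) c)
  have hw0 : 0 < ‖w‖ := norm_pos_iff.2 (h0 w hw)
  have hc : lam w * ‖w‖ ^ (2 * p) ≠ 0 :=
    mul_ne_zero hl (Real.rpow_pos_of_pos hw0 _).ne'
  have key : AnalyticAt ℝ (fun t : ℝ => (lam w * ‖w‖ ^ (2 * p)) * |t| ^ p) 0 := by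
    have h1 : AnalyticAt ℝ
        (fun t : ℝ => -∑ v ∈ D.erase w, lam v * |⟪ξ₀, v⟫ + t * ⟪w, v⟫| ^ p) 0 := by
      apply AnalyticAt.neg
      apply Finset.analyticAt_fun_sum
      intro v hv
      exact analyticAt_const.mul (analyticAt_abs_rpow (hξ v hv))
    refine h1.congr (Eventually.of_forall fun t => ?_)
    have h2 := h (ξ₀ + t • w)
    rw [← Finset.add_sum_erase D _ hw] at h2
    have h3 : ⟪ξ₀ + t • w, w⟫ = t * ‖w‖ ^ 2 := by
      rw [inner_add_left, hξw, inner_smul_left, real_inner_self_eq_norm_sq, zero_add]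
      rfl
    have h4 : |t * ‖w‖ ^ 2| ^ p = ‖w‖ ^ (2 * p) * |t| ^ p := by
      have e1 : |‖w‖ ^ 2| = ‖w‖ ^ (2 : ℝ) := by
        rw [abs_of_nonneg (sq_nonneg _), Real.rpow_two]
      rw [abs_mul, Real.mul_rpow (abs_nonneg _) (abs_nonneg _), e1,
        ← Real.rpow_mul (norm_nonneg w), mul_comm]
    rw [h3, h4] at h2
    have h5 : ∀ v, ⟪ξ₀ + t • w, v⟫ = ⟪ξ₀, v⟫ + t * ⟪w, v⟫ := by
      intro v
      rw [inner_add_left, inner_smul_left]
      rfl
    simp only [h5] at h2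
    simp only
    linarith
  obtain ⟨k, hk⟩ := even_of_analyticAt hc key
  exact hpe k hk

end Pool.Agent.Lib.P23d34e
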