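import Mathlib
import Pool.Agent.Lib.P23d34e.Indep

/-!
# Fréchet's functional equation and linear independence of the functions `ξ ↦ ‖S_ξ v‖ ^ p`
-/

set_option autoImplicit false

open Topology Filter Set
open scoped InnerProductSpace RealInnerProductSpace

namespace Pool.Agent.Lib.P23d34e

lemma exists_poly_progression {G : ℝ → ℝ} {m : ℕ} (h : ∀ s x : ℝ, (fwdDiff s)^[m] G x = 0)
    (a : ℝ) {s : ℝ} (hs : s ≠ 0) :
    ∃ P : Polynomial ℝ, ∀ n : ℕ, G (a + n * s) = P.eval (a + n * s) := by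
  let Q : Polynomial ℝ := ∑ k ∈ Finset.range m,
    Polynomial.C ((fwdDiff s)^[k] G a / (k.factorial : ℝ)) * descPochhammer ℝ k
  have hz : ∀ k, m ≤ k → (fwdDiff s)^[k] G a = 0 := by
    intro k hk
    obtain ⟨j, rfl⟩ := Nat.exists_eq_add_of_le hk
    rw [add_comm m j, Function.iterate_add_apply]
    have h1 : (fwdDiff s)^[m] G = fun _ => 0 := funext fun x => h s x
    rw [h1]
    clear hk
    have h2 : ∀ j : ℕ, (fwdDiff s)^[j] (fun _ : ℝ => (0 : ℝ)) = fun _ => 0 := by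
      intro j
      induction j with
      | zero => rfl
      | succ j ih =>
        rw [Function.iterate_succ_apply]
        have : fwdDiff s (fun _ : ℝ => (0 : ℝ)) = fun _ => 0 := by
          ext x
          simp [fwdDiff]
        rw [this, ih]
    rw [h2]
  have hQ : ∀ n : ℕ, G (a + n * s) = Q.eval (n : ℝ) := by
    intro n
    have h1 := shift_eq_sum_fwdDiff_iter s G n a
    rw [nsmul_eq_mul] at h1
    rw [h1]
    have h2 : ∀ k, (n.choose k) • (fwdDiff s)^[k] G a =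
        ((fwdDiff s)^[k] G a / (k.factorial : ℝ)) * (descPochhammer ℝ k).eval (n : ℝ) := by
      intro k
      rw [nsmul_eq_mul, Nat.cast_choose_eq_descPochhammer_div]
      ring
    rw [Polynomial.eval_finset_sum]
    simp only [Polynomial.eval_mul, Polynomial.eval_C, ← h2]
    have e1 : ∑ k ∈ Finset.range (n + 1), (n.choose k) • (fwdDiff s)^[k] G a =
        ∑ k ∈ Finset.range (n + 1 + m), (n.choose k) • (fwdDiff s)^[k] G a := by
      apply Finset.sum_subset (Finset.range_subset_range.2 (by omega))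
      intro k _ hk
      rw [Finset.mem_range, not_lt] at hk
      rw [Nat.choose_eq_zero_of_lt (by omega), zero_smul]
    have e2 : ∑ k ∈ Finset.range m, (n.choose k) • (fwdDiff s)^[k] G a =
        ∑ k ∈ Finset.range (n + 1 + m), (n.choose k) • (fwdDiff s)^[k] G a := by
      apply Finset.sum_subset (Finset.range_subset_range.2 (by omega))
      intro k _ hk
      rw [Finset.mem_range, not_lt] at hk
      rw [hz k hk, smul_zero]
    rw [e1, e2]
  refine ⟨Q.comp (Polynomial.C s⁻¹ * (Polynomial.X - Polynomial.C a)), fun n => ?_⟩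
  rw [hQ, Polynomial.eval_comp]
  congr 1
  simp only [Polynomial.eval_mul, Polynomial.eval_C, Polynomial.eval_sub, Polynomial.eval_X]
  field_simp
  ring

/-- Fréchet's theorem for continuous functions on the line. -/
theorem frechet {G : ℝ → ℝ} (hc : Continuous G) {m : ℕ}
    (h : ∀ s x : ℝ, (fwdDiff s)^[m] G x = 0) : ∃ P : Polynomial ℝ, ∀ t, G t = P.eval t := by
  obtain ⟨P, hP⟩ := exists_poly_progression h 0 one_ne_zero
  have hP' : ∀ n : ℕ, G n = P.eval (n : ℝ) := by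
    intro n
    have := hP n
    simpa using this
  have key : ∀ (M N : ℕ), 0 < N → ∀ n : ℕ,
      G (-(M : ℝ) + n * (1 / (N : ℝ))) = P.eval (-(M : ℝ) + n * (1 / (N : ℝ))) := by
    intro M N hN
    have hN0 : (N : ℝ) ≠ 0 := by positivity
    obtain ⟨Q, hQ⟩ := exists_poly_progression h (-(M : ℝ)) (one_div_ne_zero hN0)
    have hQP : Q = P := by
      apply Polynomial.eq_of_infinite_eval_eq
      apply (Set.infinite_range_of_injective (Nat.cast_injective (R := ℝ))).mono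
      rintro _ ⟨j, rfl⟩
      show Q.eval (j : ℝ) = P.eval (j : ℝ)
      rw [← hP']
      have h1 := hQ ((j + M) * N)
      have h2 : -(M : ℝ) + (((j + M) * N : ℕ) : ℝ) * (1 / (N : ℝ)) = j := by
        push_cast
        field_simp
        ring
      rw [h2] at h1
      exact h1.symm
    rw [← hQP]
    exact hQ
  have hrat : ∀ r : ℚ, G (r : ℝ) = P.eval (r : ℝ) := by
    intro r
    have hnn : 0 ≤ r.num + (r.num.natAbs : ℤ) * (r.den : ℤ) := by
      have h1 : (0 : ℤ) < r.den := by exact_mod_cast r.den_pos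
      have h2 : -r.num ≤ (r.num.natAbs : ℤ) := by
        rw [Int.natCast_natAbs]
        exact neg_le_abs _
      have h3 : (0 : ℤ) ≤ (r.num.natAbs : ℤ) := Int.natCast_nonneg _
      nlinarith
    obtain ⟨n, hn⟩ := Int.eq_ofNat_of_zero_le hnn
    have h1 := key r.num.natAbs r.den r.den_pos n
    have h2 : -((r.num.natAbs : ℕ) : ℝ) + (n : ℝ) * (1 / (r.den : ℝ)) = r := by
      have h3 : (n : ℝ) = (r.num : ℝ) + (r.num.natAbs : ℝ) * (r.den : ℝ) := by
        have := congrArg (fun z : ℤ => (z : ℝ)) hn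
        push_cast at this
        rw [Nat.cast_natAbs]
        push_cast
        linarith
      have h4 : (r.den : ℝ) ≠ 0 := by exact_mod_cast r.den_nz
      rw [h3, Rat.cast_def]
      field_simp
      ring
    rw [h2] at h1
    exact h1
  refine ⟨P, fun t => ?_⟩
  have h1 : G = fun t => P.eval t :=
    Rat.denseRange_cast.equalizer hc P.continuous (funext hrat)
  exact congrFun h1 t

variable {E : Type*} [NormedAddCommGroup E] [InnerProductSpace ℝ E]

lemma diff_zero {d : E} (hd : ∃ e : E, ⟪e, d⟫ = 1) (s : ℝ) (W : Finset E) :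
    (∀ w ∈ W, ∃ e : E, ⟪e, w⟫ = 0 ∧ ⟪e, d⟫ = 1) → ∀ (φ : E → ℝ → ℝ) (G : ℝ → ℝ),
      (∀ ξ : E, G ⟪ξ, d⟫ + ∑ w ∈ W, φ w ⟪ξ, w⟫ = 0) → ∀ x, (fwdDiff s)^[W.card] G x = 0 := by
  classical
  induction W using Finset.induction_on with
  | empty =>
    intro _ φ G hG x
    obtain ⟨e, he⟩ := hd
    have h1 := hG (x • e)
    rw [Finset.sum_empty, add_zero, inner_smul_left, he, mul_one] at h1
    exact h1
  | insert w₀ W hw₀ ih =>
    intro hW φ G hG x
    obtain ⟨e, he0, he1⟩ := hW w₀ (Finset.mem_insert_self _ _)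
    rw [Finset.card_insert_of_notMem hw₀, Function.iterate_succ_apply]
    apply ih (fun w hw => hW w (Finset.mem_insert_of_mem hw))
      (fun w t => φ w (t + s * ⟪e, w⟫) - φ w t) (fwdDiff s G)
    intro ξ
    have h1 := hG ξ
    have h2 := hG (ξ + s • e)
    have h3 : ∀ v, ⟪ξ + s • e, v⟫ = ⟪ξ, v⟫ + s * ⟪e, v⟫ := by
      intro v
      rw [inner_add_left, inner_smul_left]
      rfl
    simp only [h3] at h2
    rw [Finset.sum_insert hw₀] at h1 h2
    rw [he0, he1, mul_zero, add_zero, mul_one] at h2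
    rw [fwdDiff, Finset.sum_sub_distrib]
    linarith

lemma exists_dual {d w : E} (hd : d ≠ 0) (hdw : ∀ c : ℝ, d ≠ c • w) :
    ∃ e : E, ⟪e, w⟫ = 0 ∧ ⟪e, d⟫ = 1 := by
  obtain ⟨ξ, h1, h2⟩ := exists_orth (D := {d}) (w := w) (fun v hv c => by
    rw [Finset.mem_singleton.1 hv]
    exact hdw c)
  have h3 := h2 d (Finset.mem_singleton_self d)
  refine ⟨(⟪ξ, d⟫)⁻¹ • ξ, ?_, ?_⟩
  · rw [inner_smul_left, h1, mul_zero]
  · rw [inner_smul_left]
    exact inv_mul_cancel₀ h3

/-- If `t ↦ ‖x + t y‖ ^ q` is not a polynomial, the functions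
`(ξ, η) ↦ ‖⟨ξ, v⟩ x + ⟨η, v⟩ y‖ ^ q`, `v` in a finite set of pairwise non-proportional vectors,
are linearly independent. -/
theorem indepY {Y : Type*} [NormedAddCommGroup Y] [NormedSpace ℝ Y] {q : ℝ} (hq : 0 < q) {x y : Y}
    (hxy : ¬ ∃ P : Polynomial ℝ, ∀ t : ℝ, ‖x + t • y‖ ^ q = P.eval t) {D : Finset E}
    (h0 : ∀ v ∈ D, v ≠ 0) (hD : ∀ v ∈ D, ∀ w ∈ D, v ≠ w → ∀ c : ℝ, v ≠ c • w) (lam : E → ℝ)
    (h : ∀ ξ : E × E, ∑ v ∈ D, lam v * ‖⟪ξ.1, v⟫ • x + ⟪ξ.2, v⟫ • y‖ ^ q = 0) :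
    ∀ v ∈ D, lam v = 0 := by
  classical
  intro d hd
  by_contra hl
  apply hxy
  have hd0 := h0 d hd
  obtain ⟨e₀, he₀⟩ : ∃ e : E, ⟪e, d⟫ = 1 := by
    refine ⟨(‖d‖ ^ 2)⁻¹ • d, ?_⟩
    rw [inner_smul_left, real_inner_self_eq_norm_sq]
    have : 0 < ‖d‖ := norm_pos_iff.2 hd0
    exact inv_mul_cancel₀ (by positivity)
  have hW : ∀ w ∈ D.erase d, ∃ e : E, ⟪e, w⟫ = 0 ∧ ⟪e, d⟫ = 1 := by
    intro w hw
    exact exists_dual hd0 (hD d hd w (Finset.mem_of_mem_erase hw) (Finset.ne_of_mem_erase hw).symm)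
  have h1 := fun s => diff_zero ⟨e₀, he₀⟩ s (D.erase d) hW
    (fun w t => lam w * ‖⟪e₀, w⟫ • x + t • y‖ ^ q) (fun t => lam d * ‖x + t • y‖ ^ q) (by
      intro ξ
      have h2 := h (e₀, ξ)
      rw [← Finset.add_sum_erase D _ hd] at h2
      simp only [he₀, one_smul] at h2
      exact h2)
  obtain ⟨P, hP⟩ := frechet (G := fun t => lam d * ‖x + t • y‖ ^ q) (by
    apply continuous_const.mul
    apply Continuous.rpow_const (by fun_prop)
    intro t
    exact Or.inr hq.le) h1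
  refine ⟨Polynomial.C (lam d)⁻¹ * P, fun t => ?_⟩
  rw [Polynomial.eval_mul, Polynomial.eval_C, ← hP t, inv_mul_cancel_left₀ hl]

end Pool.Agent.Lib.P23d34e
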