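import Mathlib
import Pool.Agent.Lib.P23d34e.Frechet

/-!
# The Euclidean norm is an interior point of the cone of the functions `v ↦ ‖S v‖ ^ q`
-/

set_option autoImplicit false

open Topology Filter Set MeasureTheory Metric
open scoped InnerProductSpace RealInnerProductSpace

namespace Pool.Agent.Lib.P23d34e

section Integral

variable {E : Type*} [NormedAddCommGroup E] [InnerProductSpace ℝ E]
variable {Y : Type*} [NormedAddCommGroup Y] [NormedSpace ℝ Y]

/-- the operator `v ↦ ⟨ξ, v⟩ x + ⟨η, v⟩ y` -/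
noncomputable def sop (x y : Y) (ξ : E × E) : E →ₗ[ℝ] Y :=
  ((innerₗ E ξ.1).smulRight x) + ((innerₗ E ξ.2).smulRight y)

lemma sop_apply (x y : Y) (ξ : E × E) (v : E) :
    sop x y ξ v = ⟪ξ.1, v⟫ • x + ⟪ξ.2, v⟫ • y := rfl

lemma continuous_sop (x y : Y) (v : E) : Continuous fun ξ : E × E => sop x y ξ v := by
  simp only [sop_apply]
  exact ((continuous_fst.inner continuous_const).smul continuous_const).add
    ((continuous_snd.inner continuous_const).smul continuous_const)

lemma cont_sop_rpow {q : ℝ} (hq : 0 < q) (x y : Y) (v : E) :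
    Continuous fun ξ : E × E => ‖sop x y ξ v‖ ^ q :=
  (continuous_sop x y v).norm.rpow_const fun _ => Or.inr hq.le

variable [FiniteDimensional ℝ E] [MeasurableSpace E] [BorelSpace E]

/-- the integral of `‖S_ξ v‖ ^ q` over the product of two unit balls -/
noncomputable def ballInt (q : ℝ) (x y : Y) (v : E) : ℝ :=
  ∫ ξ in closedBall (0 : E × E) 1, ‖sop x y ξ v‖ ^ q

lemma ballInt_nonneg (q : ℝ) (x y : Y) (v : E) : 0 ≤ ballInt q x y v :=
  integral_nonneg fun _ => Real.rpow_nonneg (norm_nonneg _) _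

lemma ballInt_eq_of_norm {q : ℝ} {x y : Y} {v w : E} (h : ‖v‖ = ‖w‖) :
    ballInt q x y v = ballInt q x y w := by
  obtain ⟨R, hR⟩ : ∃ R : E ≃ₗᵢ[ℝ] E, R v = w := ⟨_, Submodule.reflection_sub h⟩
  unfold ballInt
  have h1 : Prod.map R R ⁻¹' closedBall (0 : E × E) 1 = closedBall 0 1 := by
    ext ξ
    rw [mem_preimage, mem_closedBall_zero_iff, mem_closedBall_zero_iff, Prod.norm_def,
      Prod.norm_def, Prod.map_fst, Prod.map_snd, R.norm_map, R.norm_map]
  have hmp : MeasurePreserving (Prod.map R R) (volume : Measure (E × E)) volume :=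
    R.measurePreserving.prod R.measurePreserving
  have hme : MeasurableEmbedding (Prod.map R R) :=
    (R.toHomeomorph.prodCongr R.toHomeomorph).measurableEmbedding
  have h2 := hmp.setIntegral_preimage_emb hme
    (fun ξ : E × E => ‖sop x y ξ w‖ ^ q) (closedBall (0 : E × E) 1)
  rw [h1] at h2
  rw [← h2]
  congr 1
  ext ξ
  rw [← hR, sop_apply, sop_apply, Prod.map_fst, Prod.map_snd, R.inner_map_map, R.inner_map_map]

lemma ballInt_smul {q : ℝ} {x y : Y} (c : ℝ) (v : E) :
    ballInt q x y (c • v) = |c| ^ q * ballInt q x y v := by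
  unfold ballInt
  rw [← integral_const_mul]
  congr 1
  ext ξ
  rw [map_smul, norm_smul, Real.mul_rpow (norm_nonneg _) (norm_nonneg _), Real.norm_eq_abs]

/-- The integral of `‖S_ξ v‖ ^ q` is a constant multiple of `‖v‖ ^ q`. -/
lemma exists_ballInt_eq (q : ℝ) (hq : 0 < q) (x y : Y) :
    ∃ κ : ℝ, 0 ≤ κ ∧ ∀ v : E, ballInt q x y v = κ * ‖v‖ ^ q := by
  by_cases hE : ∃ e : E, ‖e‖ = 1
  · obtain ⟨e, he⟩ := hE
    refine ⟨ballInt q x y e, ballInt_nonneg q x y e, fun v => ?_⟩
    have h1 : ballInt q x y v = ballInt q x y (‖v‖ • e) :=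
      ballInt_eq_of_norm (by rw [norm_smul, he, norm_norm, mul_one])
    rw [h1, ballInt_smul, abs_norm, mul_comm]
  · refine ⟨0, le_rfl, fun v => ?_⟩
    have hv : v = 0 := by
      by_contra h
      exact hE ⟨‖v‖⁻¹ • v, norm_smul_inv_norm h⟩
    have h2 : ballInt q x y (0 : E) = 0 := by
      have := ballInt_smul (q := q) (x := x) (y := y) 0 (0 : E)
      rw [zero_smul, abs_zero, Real.zero_rpow hq.ne', zero_mul] at this
      exact this
    rw [hv, h2, zero_mul]

end Integral

section Cone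

variable {E : Type*} [NormedAddCommGroup E] [InnerProductSpace ℝ E]
variable {Y : Type*} [NormedAddCommGroup Y] [NormedSpace ℝ Y]

/-- the vector of values of `v ↦ ‖S_ξ v‖ ^ p` -/
noncomputable def kvec (p : ℝ) (x y : Y) (D : Finset E) (ξ : E × E) : D → ℝ :=
  fun v => ‖sop x y ξ (v : E)‖ ^ p

/-- the vector of values of `‖·‖ ^ p` -/
noncomputable def tvec (p : ℝ) (D : Finset E) : D → ℝ := fun v => ‖(v : E)‖ ^ p

/-- the cone generated by the vectors `kvec p x y D ξ` -/
noncomputable def cone (p : ℝ) (x y : Y) (D : Finset E) : Submodule NNReal (D → ℝ) :=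
  Submodule.span NNReal (Set.range (kvec p x y D))

lemma kvec_mem_cone (p : ℝ) (x y : Y) (D : Finset E) (ξ : E × E) :
    kvec p x y D ξ ∈ cone p x y D :=
  Submodule.subset_span ⟨ξ, rfl⟩

lemma cone_smul_mem {p : ℝ} {x y : Y} {D : Finset E} {z : D → ℝ} (hz : z ∈ cone p x y D)
    {c : ℝ} (hc : 0 ≤ c) : c • z ∈ cone p x y D :=
  (cone p x y D).smul_mem (⟨c, hc⟩ : NNReal) hz

lemma convex_cone (p : ℝ) (x y : Y) (D : Finset E) :
    Convex ℝ (cone p x y D : Set (D → ℝ)) := by
  intro z hz w hw a b ha hb _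
  exact (cone p x y D).add_mem (cone_smul_mem hz ha) (cone_smul_mem hw hb)

variable {p : ℝ} {D : Finset E} {x y : Y}

/-- a functional vanishing on all the vectors `kvec p x y D ξ` vanishes -/
lemma functional_zero (hp : 0 < p)
    (hpe : ¬ ∃ P : Polynomial ℝ, ∀ t : ℝ, ‖x + t • y‖ ^ p = P.eval t)
    (h0 : ∀ v ∈ D, v ≠ 0) (hD : ∀ v ∈ D, ∀ w ∈ D, v ≠ w → ∀ c : ℝ, v ≠ c • w)
    (f : (D → ℝ) →ₗ[ℝ] ℝ) (hf : ∀ ξ, f (kvec p x y D ξ) = 0) : f = 0 := by
  classical
  let lam : E → ℝ := fun v => if h : v ∈ D then f (Pi.single (⟨v, h⟩ : D) 1) else 0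
  have h1 : ∀ x : D → ℝ, f x = ∑ v : D, x v * f (Pi.single v 1) := by
    intro x
    have := f.pi_apply_eq_sum_univ x
    rw [this]
    apply Finset.sum_congr rfl
    intro v _
    rw [smul_eq_mul]
    congr 2
    ext w
    rw [Pi.single_apply]
    simp [eq_comm]
  have h2 := indepY hp hpe h0 hD lam (fun ξ => by
    have h3 := hf ξ
    rw [h1] at h3
    show ∑ v ∈ D, lam v * ‖sop x y ξ v‖ ^ p = 0
    rw [← Finset.sum_coe_sort D (fun v => lam v * ‖sop x y ξ v‖ ^ p)]
    rw [← h3]
    apply Finset.sum_congr rfl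
    intro v _
    simp only [lam, v.2, dif_pos, kvec]
    rw [mul_comm])
  apply LinearMap.ext
  intro x
  rw [h1]
  apply Finset.sum_eq_zero
  intro v _
  have h4 := h2 v v.2
  simp only [lam, v.2, dif_pos] at h4
  have h5 : f (Pi.single v 1) = 0 := h4
  rw [h5, mul_zero]

lemma span_kvec (hp : 0 < p)
    (hpe : ¬ ∃ P : Polynomial ℝ, ∀ t : ℝ, ‖x + t • y‖ ^ p = P.eval t)
    (h0 : ∀ v ∈ D, v ≠ 0) (hD : ∀ v ∈ D, ∀ w ∈ D, v ≠ w → ∀ c : ℝ, v ≠ c • w) :
    Submodule.span ℝ (Set.range (kvec p x y D)) = ⊤ := by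
  by_contra hne
  obtain ⟨f, hf0, hf⟩ := Submodule.exists_le_ker_of_lt_top _ (lt_top_iff_ne_top.2 hne)
  apply hf0
  apply functional_zero hp hpe h0 hD
  intro ξ
  exact hf (Submodule.subset_span ⟨ξ, rfl⟩)

lemma interior_cone_nonempty (hp : 0 < p)
    (hpe : ¬ ∃ P : Polynomial ℝ, ∀ t : ℝ, ‖x + t • y‖ ^ p = P.eval t)
    (h0 : ∀ v ∈ D, v ≠ 0) (hD : ∀ v ∈ D, ∀ w ∈ D, v ≠ w → ∀ c : ℝ, v ≠ c • w) :
    (interior (cone p x y D : Set (D → ℝ))).Nonempty := by
  have hne : (cone p x y D : Set (D → ℝ)).Nonempty := ⟨0, (cone p x y D).zero_mem⟩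
  rw [(convex_cone p x y D).interior_nonempty_iff_affineSpan_eq_top,
    AffineSubspace.affineSpan_eq_top_iff_vectorSpan_eq_top_of_nonempty ℝ _ _ hne, eq_top_iff,
    ← span_kvec hp hpe h0 hD, Submodule.span_le]
  rintro _ ⟨ξ, rfl⟩
  have := vsub_mem_vectorSpan ℝ (s := (cone p x y D : Set (D → ℝ))) (kvec_mem_cone p x y D ξ)
    ((cone p x y D).zero_mem)
  simpa using this

end Cone

section Interior

variable {E : Type*} [NormedAddCommGroup E] [InnerProductSpace ℝ E] [FiniteDimensional ℝ E]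
variable {Y : Type*} [NormedAddCommGroup Y] [NormedSpace ℝ Y]
variable {p : ℝ} {D : Finset E} {x y : Y}

lemma tvec_mem_interior (hp : 0 < p)
    (hpe : ¬ ∃ P : Polynomial ℝ, ∀ t : ℝ, ‖x + t • y‖ ^ p = P.eval t)
    (h0 : ∀ v ∈ D, v ≠ 0) (hD : ∀ v ∈ D, ∀ w ∈ D, v ≠ w → ∀ c : ℝ, v ≠ c • w) :
    tvec p D ∈ interior (cone p x y D : Set (D → ℝ)) := by
  classical
  letI : MeasurableSpace E := borel E
  haveI : BorelSpace E := ⟨rfl⟩
  by_contra hcon
  obtain ⟨f, hf⟩ := geometric_hahn_banach_open_point (convex_cone p x y D).interior isOpen_interior hcon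
  obtain ⟨a, ha⟩ := interior_cone_nonempty hp hpe h0 hD
  -- `f ≤ 0` on the cone
  have hle : ∀ c ∈ cone p x y D, f c ≤ 0 := by
    intro c hc
    by_contra hpos
    push Not at hpos
    obtain ⟨n, hn⟩ := exists_nat_gt ((f (tvec p D) - f a) / f c)
    have hmem : a + (n : ℝ) • c ∈ interior (cone p x y D : Set (D → ℝ)) := by
      have hopen : IsOpen ((fun x => x + (n : ℝ) • c) '' interior (cone p x y D : Set (D → ℝ))) :=
        (Homeomorph.addRight ((n : ℝ) • c)).isOpenMap _ isOpen_interior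
      have hsub : ((fun x => x + (n : ℝ) • c) '' interior (cone p x y D : Set (D → ℝ))) ⊆
          (cone p x y D : Set (D → ℝ)) := by
        rintro _ ⟨z, hz, rfl⟩
        exact (cone p x y D).add_mem (interior_subset hz) (cone_smul_mem hc (Nat.cast_nonneg n))
      exact interior_maximal hsub hopen ⟨a, ha, rfl⟩
    have h1 := hf _ hmem
    rw [map_add, map_smul, smul_eq_mul] at h1
    rw [div_lt_iff₀ hpos] at hn
    linarith
  -- `0 ≤ f τ`
  have hge : 0 ≤ f (tvec p D) := by
    by_contra hneg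
    push Not at hneg
    have hfa : f a < 0 := (hf a ha).trans hneg
    set t : ℝ := f (tvec p D) / (2 * f a) with ht
    have ht0 : 0 < t := div_pos_of_neg_of_neg hneg (by linarith)
    have hmem : t • a ∈ interior (cone p x y D : Set (D → ℝ)) := by
      have hopen : IsOpen ((fun x => t • x) '' interior (cone p x y D : Set (D → ℝ))) :=
        (Homeomorph.smulOfNeZero t ht0.ne').isOpenMap _ isOpen_interior
      have hsub : ((fun x => t • x) '' interior (cone p x y D : Set (D → ℝ))) ⊆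
          (cone p x y D : Set (D → ℝ)) := by
        rintro _ ⟨x, hx, rfl⟩
        exact cone_smul_mem (interior_subset hx) ht0.le
      exact interior_maximal hsub hopen ⟨a, ha, rfl⟩
    have h1 := hf _ hmem
    rw [map_smul, smul_eq_mul, ht, div_mul_eq_mul_div, div_lt_iff_of_neg (by linarith)] at h1
    nlinarith
  -- integrate
  obtain ⟨κ, hκ, hint⟩ := exists_ballInt_eq (E := E) p hp x y
  have hrep : ∀ x : D → ℝ, f x = ∑ v : D, x v * f (Pi.single v 1) := by
    intro x
    have := (f : (D → ℝ) →ₗ[ℝ] ℝ).pi_apply_eq_sum_univ x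
    rw [ContinuousLinearMap.coe_coe] at this
    rw [this]
    apply Finset.sum_congr rfl
    intro v _
    rw [smul_eq_mul]
    congr 2
    ext w
    rw [Pi.single_apply]
    simp [eq_comm]
  have hcont : Continuous fun ξ : E × E => f (kvec p x y D ξ) := by
    apply f.continuous.comp
    exact continuous_pi fun v => cont_sop_rpow hp x y (v : E)
  have hI : ∫ ξ in closedBall (0 : E × E) 1, f (kvec p x y D ξ) = κ * f (tvec p D) := by
    have h1 : ∀ ξ : E × E, f (kvec p x y D ξ) = ∑ v : D, ‖sop x y ξ (v : E)‖ ^ p * f (Pi.single v 1) :=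
      fun ξ => hrep _
    simp only [h1]
    rw [integral_finsetSum]
    · rw [hrep, Finset.mul_sum]
      apply Finset.sum_congr rfl
      intro v _
      rw [integral_mul_const]
      have := hint (v : E)
      unfold ballInt at this
      rw [this]
      simp only [tvec]
      ring
    · intro v _
      exact (((cont_sop_rpow hp x y (v : E)).mul continuous_const).continuousOn).integrableOn_compact
        (isCompact_closedBall _ _)
  have hI0 : ∫ ξ in closedBall (0 : E × E) 1, -f (kvec p x y D ξ) = 0 := by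
    rw [integral_neg, hI]
    have h1 : 0 ≤ ∫ ξ in closedBall (0 : E × E) 1, -f (kvec p x y D ξ) :=
      integral_nonneg fun ξ => neg_nonneg.2 (hle _ (kvec_mem_cone p x y D ξ))
    rw [integral_neg, hI] at h1
    have h2 := mul_nonneg hκ hge
    linarith
  have hae : (fun ξ : E × E => -f (kvec p x y D ξ)) =ᵐ[volume.restrict (closedBall (0 : E × E) 1)] 0 := by
    rw [setIntegral_eq_zero_iff_of_nonneg_ae] at hI0
    · exact hI0
    · exact Eventually.of_forall fun ξ => neg_nonneg.2 (hle _ (kvec_mem_cone p x y D ξ))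
    · exact hcont.neg.continuousOn.integrableOn_compact (isCompact_closedBall _ _)
  have hball : ∀ ξ ∈ ball (0 : E × E) 1, f (kvec p x y D ξ) = 0 := by
    intro ξ hξ
    have h1 := Measure.eqOn_open_of_ae_eq (μ := volume)
      (ae_restrict_of_ae_restrict_of_subset ball_subset_closedBall hae) isOpen_ball
      hcont.neg.continuousOn continuousOn_const hξ
    have h2 : -f (kvec p x y D ξ) = 0 := h1
    linarith
  have hall : ∀ ξ : E × E, f (kvec p x y D ξ) = 0 := by
    intro ξ
    obtain ⟨t, ht, htb⟩ : ∃ t : ℝ, 0 < t ∧ t • ξ ∈ ball (0 : E × E) 1 := by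
      refine ⟨(1 + ‖ξ‖)⁻¹, by positivity, ?_⟩
      rw [mem_ball_zero_iff, norm_smul, norm_inv, Real.norm_eq_abs, abs_of_pos (by positivity),
        inv_mul_lt_iff₀ (by positivity)]
      linarith
    have h1 := hball _ htb
    have h2 : kvec p x y D (t • ξ) = t ^ p • kvec p x y D ξ := by
      ext v
      simp only [kvec, Pi.smul_apply, smul_eq_mul]
      have h3 : sop x y (t • ξ) (v : E) = t • sop x y ξ (v : E) := by
        rw [sop_apply, sop_apply, Prod.smul_fst, Prod.smul_snd, inner_smul_left, inner_smul_left,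
          smul_add, smul_smul, smul_smul]
        rfl
      rw [h3, norm_smul, Real.mul_rpow (norm_nonneg _) (norm_nonneg _), Real.norm_eq_abs,
        abs_of_pos ht]
    rw [h2, map_smul, smul_eq_mul] at h1
    exact (mul_eq_zero.1 h1).resolve_left (Real.rpow_pos_of_pos ht p).ne'
  have hf0 := functional_zero hp hpe h0 hD (f : (D → ℝ) →ₗ[ℝ] ℝ) hall
  have h1 := hf a ha
  have h2 : ∀ x, f x = 0 := fun x => by
    have := congrArg (fun g : (D → ℝ) →ₗ[ℝ] ℝ => g x) hf0
    simpa using this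
  rw [h2, h2] at h1
  exact lt_irrefl _ h1

/-- a representation of `‖v‖ ^ p` with positive coefficients and spanning vectors -/
theorem exists_rep (hp : 0 < p)
    (hpe : ¬ ∃ P : Polynomial ℝ, ∀ t : ℝ, ‖x + t • y‖ ^ p = P.eval t)
    (h0 : ∀ v ∈ D, v ≠ 0) (hD : ∀ v ∈ D, ∀ w ∈ D, v ≠ w → ∀ c : ℝ, v ≠ c • w) :
    ∃ (G : Finset (E × E)) (a : E × E → ℝ), (∀ ξ ∈ G, 0 < a ξ) ∧
      (∑ ξ ∈ G, a ξ • kvec p x y D ξ = tvec p D) ∧
      Submodule.span ℝ (kvec p x y D '' (G : Set (E × E))) = ⊤ := by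
  classical
  -- a finite spanning family
  obtain ⟨F, hF⟩ : ∃ F : Finset (E × E), Submodule.span ℝ (kvec p x y D '' (F : Set (E × E))) = ⊤ := by
    have h1 := span_kvec hp hpe h0 hD
    have h2 : (⊤ : Submodule ℝ (D → ℝ)).FG := Module.finite_def.1 inferInstance
    rw [← h1] at h2
    obtain ⟨T, hT, hT2⟩ := Submodule.fg_span_iff_fg_span_finset_subset _ |>.1 h2
    obtain ⟨F, hF⟩ : ∃ F : Finset (E × E), kvec p x y D '' (F : Set (E × E)) = T := by
      choose g hg using fun x : T => hT x.2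
      refine ⟨Finset.univ.image g, ?_⟩
      ext x
      simp only [Finset.coe_image, Finset.coe_univ, Set.image_univ, Set.mem_image, Set.mem_range]
      constructor
      · rintro ⟨_, ⟨y, rfl⟩, rfl⟩
        rw [hg y]
        exact y.2
      · intro hx
        exact ⟨g ⟨x, hx⟩, ⟨_, rfl⟩, hg ⟨x, hx⟩⟩
    refine ⟨F, ?_⟩
    rw [hF, ← hT2, h1]
  -- subtract a small multiple of their sum
  set σ : D → ℝ := ∑ ξ ∈ F, kvec p x y D ξ with hσ
  have hmem := tvec_mem_interior hp hpe h0 hD
  obtain ⟨s, hs, hsm⟩ : ∃ s : ℝ, 0 < s ∧ tvec p D - s • σ ∈ cone p x y D := by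
    have h1 : Tendsto (fun s : ℝ => tvec p D - s • σ) (𝓝[>] 0) (𝓝 (tvec p D)) := by
      have h2 : Continuous fun s : ℝ => tvec p D - s • σ := by fun_prop
      have h3 := h2.tendsto 0
      rw [zero_smul, sub_zero] at h3
      exact h3.mono_left nhdsWithin_le_nhds
    have h4 := h1.eventually (mem_interior_iff_mem_nhds.1 hmem)
    obtain ⟨s, hs, hs0⟩ := (h4.and self_mem_nhdsWithin).exists
    exact ⟨s, hs0, hs⟩
  -- coefficients
  obtain ⟨b, hb⟩ := (Finsupp.mem_span_range_iff_exists_finsupp (R := NNReal)).1 hsm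
  refine ⟨F ∪ b.support, fun ξ => (if ξ ∈ F then s else 0) + b ξ, ?_, ?_, ?_⟩
  · intro ξ hξ
    rw [Finset.mem_union] at hξ
    beta_reduce
    by_cases h : ξ ∈ F
    · rw [if_pos h]
      have : (0 : ℝ) ≤ b ξ := (b ξ).2
      linarith
    · rw [if_neg h, zero_add]
      have h1 := hξ.resolve_left h
      rw [Finsupp.mem_support_iff] at h1
      exact lt_of_le_of_ne (b ξ).2 (fun h2 => h1 (NNReal.eq h2.symm))
  · simp only [add_smul, Finset.sum_add_distrib]
    have e1 : ∑ ξ ∈ F ∪ b.support, (if ξ ∈ F then s else 0) • kvec p x y D ξ = s • σ := by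
      rw [hσ, Finset.smul_sum, ← Finset.sum_subset (Finset.subset_union_left (s₂ := b.support))]
      · apply Finset.sum_congr rfl
        intro ξ hξ
        rw [if_pos hξ]
      · intro ξ _ hξ
        rw [if_neg hξ, zero_smul]
    have e2 : ∑ ξ ∈ F ∪ b.support, ((b ξ : NNReal) : ℝ) • kvec p x y D ξ = tvec p D - s • σ := by
      rw [← hb, Finsupp.sum, ← Finset.sum_subset (Finset.subset_union_right (s₁ := F))]
      · rfl
      · intro ξ _ hξ
        rw [Finsupp.notMem_support_iff] at hξ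
        rw [hξ, NNReal.coe_zero, zero_smul]
    rw [e1, e2]
    abel
  · rw [eq_top_iff, ← hF]
    apply Submodule.span_mono
    apply Set.image_mono
    intro ξ hξ
    exact Finset.mem_coe.2 (Finset.mem_union_left _ hξ)

end Interior

end Pool.Agent.Lib.P23d34e
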