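import Mathlib
import Pool.Agent.Lib.P23d34e.ConeY
import Pool.Agent.Lib.Brouwer.Brouwer

/-!
# Exact isometric embeddings from almost isometric copies of `ℓ_p^N`
-/

set_option autoImplicit false

open Topology Filter Set MeasureTheory Metric
open scoped InnerProductSpace RealInnerProductSpace ENNReal

namespace Pool.Agent.Lib.P23d34e

/-- A map of a ball that nearly agrees with a translation hits the centre (Brouwer). -/
lemma exists_zero {ι : Type*} [Fintype ι] {r η : ℝ} (hr : 0 < r) (hη0 : 0 ≤ η) (τ : ι → ℝ)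
    (g : EuclideanSpace ℝ ι → ι → ℝ) (hg : ContinuousOn g (closedBall 0 r))
    (hη : Real.sqrt (Fintype.card ι) * η ≤ r)
    (h : ∀ u ∈ closedBall (0 : EuclideanSpace ℝ ι) r, ∀ i, |τ i + u i - g u i| ≤ η) :
    ∃ u ∈ closedBall (0 : EuclideanSpace ℝ ι) r, ∀ i, g u i = τ i := by
  let Ψ : EuclideanSpace ℝ ι → EuclideanSpace ℝ ι := fun u => WithLp.toLp 2 fun i => τ i + u i - g u i
  have hc : ContinuousOn Ψ (closedBall 0 r) := by
    apply (PiLp.continuous_toLp 2 _).comp_continuousOn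
    apply continuousOn_pi.2
    intro i
    have h1 : ContinuousOn (fun u => g u i) (closedBall 0 r) := (continuousOn_pi.1 hg) i
    have h2 : Continuous fun u : EuclideanSpace ℝ ι => τ i + u i := by fun_prop
    exact h2.continuousOn.sub h1
  have hm : MapsTo Ψ (closedBall 0 r) (closedBall 0 r) := by
    intro u hu
    rw [mem_closedBall_zero_iff]
    refine le_trans ?_ hη
    rw [EuclideanSpace.norm_eq]
    have h1 : ∑ i, ‖(Ψ u) i‖ ^ 2 ≤ (Fintype.card ι : ℝ) * η ^ 2 := by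
      have h2 : ∀ i ∈ Finset.univ, ‖(Ψ u) i‖ ^ 2 ≤ η ^ 2 := by
        intro i _
        have h3 := h u hu i
        have h4 : ‖(Ψ u) i‖ = |τ i + u i - g u i| := rfl
        rw [h4]
        exact pow_le_pow_left₀ (abs_nonneg _) h3 2
      have h5 := Finset.sum_le_card_nsmul _ _ _ h2
      rw [nsmul_eq_mul] at h5
      exact h5
    calc Real.sqrt (∑ i, ‖(Ψ u) i‖ ^ 2) ≤ Real.sqrt ((Fintype.card ι : ℝ) * η ^ 2) :=
          Real.sqrt_le_sqrt h1
      _ = Real.sqrt (Fintype.card ι) * η := by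
          rw [Real.sqrt_mul (Nat.cast_nonneg _), Real.sqrt_sq hη0]
  obtain ⟨u, hu, hfix⟩ := Pool.Agent.Lib.Brouwer.brouwer_closedBall hr.le Ψ hc hm
  refine ⟨u, hu, fun i => ?_⟩
  have h1 : (Ψ u) i = u i := by rw [hfix]
  have h2 : (Ψ u) i = τ i + u i - g u i := rfl
  rw [h2] at h1
  linarith

/-- `X` contains, for all `N` and `ε > 0`, a `(1 + ε)`-isometric copy of the `p`-direct sum of `N`
copies of `Y` -/
def ContainsSums (p : ℝ≥0∞) [Fact (1 ≤ p)] (Y X : Type*) [NormedAddCommGroup Y] [NormedSpace ℝ Y]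
    [NormedAddCommGroup X] [NormedSpace ℝ X] : Prop :=
  ∀ (N : ℕ) (ε : ℝ), 0 < ε → ∃ J : PiLp p (fun _ : Fin N => Y) →ₗ[ℝ] X,
    ∀ z, ‖z‖ ≤ ‖J z‖ ∧ ‖J z‖ ≤ (1 + ε) * ‖z‖

/-- Either `p = ∞` and `Y ≠ 0`, or `p < ∞` and for some `x y : Y` the function
`t ↦ ‖x + t y‖ ^ p` on the line is not a polynomial. -/
def Flexible (p : ℝ≥0∞) (Y : Type*) [NormedAddCommGroup Y] [NormedSpace ℝ Y] : Prop :=
  (p = ∞ ∧ Nontrivial Y) ∨
    (p ≠ ∞ ∧ ∃ x y : Y, ¬ ∃ P : Polynomial ℝ, ∀ t : ℝ, ‖x + t • y‖ ^ p.toReal = P.eval t)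

section

variable {X : Type*} [NormedAddCommGroup X] [NormedSpace ℝ X] {p : ℝ≥0∞} [Fact (1 ≤ p)]
  {Y : Type*} [NormedAddCommGroup Y] [NormedSpace ℝ Y]

/-- the same with an arbitrary finite index type -/
lemma ContainsSums.exists_map (h : ContainsSums p Y X) (ι : Type*) [Fintype ι] {ε : ℝ}
    (hε : 0 < ε) : ∃ J : PiLp p (fun _ : ι => Y) →ₗ[ℝ] X,
      ∀ z, ‖z‖ ≤ ‖J z‖ ∧ ‖J z‖ ≤ (1 + ε) * ‖z‖ := by
  classical
  obtain ⟨J, hJ⟩ := h (Fintype.card ι) ε hε
  let e := LinearIsometryEquiv.piLpCongrLeft p ℝ Y (Fintype.equivFin ι)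
  refine ⟨J ∘ₗ (e.toLinearEquiv : PiLp p (fun _ : ι => Y) →ₗ[ℝ] _), fun z => ?_⟩
  have h1 := hJ (e z)
  rw [e.norm_map] at h1
  exact h1

variable {E : Type*} [NormedAddCommGroup E] [InnerProductSpace ℝ E] [FiniteDimensional ℝ E]
  {D : Finset E}

/-- the main perturbation argument -/
lemma exists_linear_of_family (hX : ContainsSums p Y X) {ι : Type*} [Fintype ι] {r : ℝ} (hr : 0 < r)
    {q : ℝ} (hq : 0 < q) (T : EuclideanSpace ℝ D → E →ₗ[ℝ] PiLp p (fun _ : ι => Y))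
    (hT : ∀ d : D, ContinuousOn (fun u => T u d) (closedBall 0 r))
    (hTn : ∀ u ∈ closedBall (0 : EuclideanSpace ℝ D) r, ∀ d : D,
      ‖T u d‖ ^ q = ‖(d : E)‖ ^ q + u d) :
    ∃ S : E →ₗ[ℝ] X, ∀ d ∈ D, ‖S d‖ = ‖d‖ := by
  classical
  -- a bound
  obtain ⟨M, hM0, hM⟩ : ∃ M : ℝ, 0 < M ∧ ∀ u ∈ closedBall (0 : EuclideanSpace ℝ D) r, ∀ d : D,
      ‖(d : E)‖ ^ q + u d ≤ M := by
    refine ⟨∑ d : D, ‖(d : E)‖ ^ q + r, ?_, ?_⟩
    · have : 0 ≤ ∑ d : D, ‖(d : E)‖ ^ q :=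
        Finset.sum_nonneg fun d _ => Real.rpow_nonneg (norm_nonneg _) _
      linarith
    · intro u hu d
      have h1 : ‖(d : E)‖ ^ q ≤ ∑ d : D, ‖(d : E)‖ ^ q :=
        Finset.single_le_sum (f := fun d : D => ‖(d : E)‖ ^ q)
          (fun d _ => Real.rpow_nonneg (norm_nonneg _) _) (Finset.mem_univ d)
      have h2 : u d ≤ r := by
        have h3 := PiLp.norm_apply_le u d
        rw [mem_closedBall_zero_iff] at hu
        exact (le_abs_self _).trans (h3.trans hu)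
      linarith
  -- choice of `η` and `ε`
  obtain ⟨η, hη0, hη⟩ : ∃ η : ℝ, 0 < η ∧ Real.sqrt (Fintype.card D) * η ≤ r := by
    refine ⟨r / (Real.sqrt (Fintype.card D) + 1), by positivity, ?_⟩
    rw [mul_div_assoc', div_le_iff₀ (by positivity)]
    nlinarith [Real.sqrt_nonneg (Fintype.card D : ℝ)]
  obtain ⟨ε, hε0, hε⟩ : ∃ ε : ℝ, 0 < ε ∧ ((1 + ε) ^ q - 1) * M ≤ η := by
    have h1 : Tendsto (fun ε : ℝ => ((1 + ε) ^ q - 1) * M) (𝓝[>] 0) (𝓝 0) := by
      have h2 : ContinuousAt (fun ε : ℝ => ((1 + ε) ^ q - 1) * M) 0 := by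
        apply ContinuousAt.mul _ continuousAt_const
        apply ContinuousAt.sub _ continuousAt_const
        apply ContinuousAt.rpow_const (by fun_prop)
        exact Or.inr hq.le
      have h3 := h2.tendsto
      simp only [add_zero, Real.one_rpow, sub_self, zero_mul] at h3
      exact h3.mono_left nhdsWithin_le_nhds
    have h4 := h1.eventually (ge_mem_nhds hη0)
    obtain ⟨ε, hε, hε0⟩ := (h4.and self_mem_nhdsWithin).exists
    exact ⟨ε, hε0, hε⟩
  obtain ⟨J, hJ⟩ := hX.exists_map ι hε0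
  obtain ⟨u, hu, hfix⟩ := exists_zero hr hη0.le (fun d : D => ‖(d : E)‖ ^ q)
    (fun u d => ‖J (T u d)‖ ^ q) (by
      apply continuousOn_pi.2
      intro d
      have h1 : Continuous J := AddMonoidHomClass.continuous_of_bound J (1 + ε) fun z => (hJ z).2
      have h2 := (h1.comp_continuousOn (hT d)).norm
      exact h2.rpow_const fun _ _ => Or.inr hq.le) hη (by
      intro u hu d
      have h1 := hTn u hu d
      have h2 := hJ (T u d)
      have h3 : ‖T u d‖ ^ q ≤ ‖J (T u d)‖ ^ q :=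
        Real.rpow_le_rpow (norm_nonneg _) h2.1 hq.le
      have h4 : ‖J (T u d)‖ ^ q ≤ (1 + ε) ^ q * ‖T u d‖ ^ q := by
        rw [← Real.mul_rpow (by positivity) (norm_nonneg _)]
        exact Real.rpow_le_rpow (norm_nonneg _) h2.2 hq.le
      have h5 : 0 ≤ (1 + ε) ^ q - 1 := by
        have := Real.one_le_rpow (x := 1 + ε) (z := q) (by linarith) hq.le
        linarith
      rw [h1] at h3 h4
      have h6 := hM u hu d
      beta_reduce
      rw [abs_le]
      constructor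
      · have h7 := mul_le_mul_of_nonneg_left h6 h5
        nlinarith
      · linarith)
  refine ⟨J ∘ₗ T u, fun d hd => ?_⟩
  have h1 : ‖J (T u d)‖ ^ q = ‖d‖ ^ q := hfix ⟨d, hd⟩
  exact (Real.rpow_left_inj (norm_nonneg _) (norm_nonneg _) hq.ne').1 h1

/-- the case of finite `p` -/
theorem exists_linear_finite (hX : ContainsSums p Y X) (hpt : p ≠ ∞) {x y : Y}
    (hxy : ¬ ∃ P : Polynomial ℝ, ∀ t : ℝ, ‖x + t • y‖ ^ p.toReal = P.eval t)
    (h0 : ∀ v ∈ D, v ≠ 0) (hD : ∀ v ∈ D, ∀ w ∈ D, v ≠ w → ∀ c : ℝ, v ≠ c • w) :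
    ∃ S : E →ₗ[ℝ] X, ∀ d ∈ D, ‖S d‖ = ‖d‖ := by
  classical
  set q : ℝ := p.toReal with hq
  have hp1 : 1 ≤ p := Fact.out
  have hp0 : p ≠ 0 := (zero_lt_one.trans_le hp1).ne'
  have hq0 : 0 < q := ENNReal.toReal_pos hp0 hpt
  obtain ⟨G, a, ha, hrep, hspan⟩ := exists_rep hq0 hxy h0 hD
  -- the map from coefficients to values
  let L : (G → ℝ) →ₗ[ℝ] (D → ℝ) := Fintype.linearCombination ℝ fun ξ : G => kvec q x y D ξ
  have hL : ∀ c, L c = ∑ ξ : G, c ξ • kvec q x y D ξ := fun c => rfl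
  have hsurj : LinearMap.range L = ⊤ := by
    rw [Fintype.range_linearCombination, ← hspan]
    congr 1
    ext x
    simp
  obtain ⟨R, hR⟩ := L.exists_rightInverse_of_surjective hsurj
  have hRc : Continuous fun u : EuclideanSpace ℝ D => R (WithLp.ofLp u) :=
    R.continuous_of_finiteDimensional.comp (PiLp.continuous_ofLp 2 _)
  let c : EuclideanSpace ℝ D → G → ℝ := fun u ξ => a ξ + R (WithLp.ofLp u) ξ
  have hcc : ∀ ξ, Continuous fun u => c u ξ := by
    intro ξ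
    exact continuous_const.add ((continuous_apply ξ).comp hRc)
  have hc0 : c 0 = fun ξ : G => a ξ := by
    ext ξ
    simp [c]
  obtain ⟨r, hr, hrc⟩ : ∃ r : ℝ, 0 < r ∧ ∀ u ∈ closedBall (0 : EuclideanSpace ℝ D) r, ∀ ξ,
      0 < c u ξ := by
    have h1 : ∀ᶠ u in 𝓝 (0 : EuclideanSpace ℝ D), ∀ ξ, 0 < c u ξ := by
      rw [Filter.eventually_all]
      intro ξ
      have h2 := (hcc ξ).tendsto 0
      apply h2.eventually (lt_mem_nhds _)
      rw [hc0]
      exact ha ξ ξ.2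
    obtain ⟨r, hr, h3⟩ := Metric.nhds_basis_closedBall.eventually_iff.1 h1
    exact ⟨r, hr, fun u hu => h3 hu⟩
  have hLc : ∀ u : EuclideanSpace ℝ D, L (c u) = tvec q D + WithLp.ofLp u := by
    intro u
    have h1 : c u = (fun ξ : G => a ξ) + R (WithLp.ofLp u) := rfl
    rw [h1, map_add]
    have h2 : L (R (WithLp.ofLp u)) = WithLp.ofLp u := by
      have := LinearMap.congr_fun hR (WithLp.ofLp u)
      simpa using this
    rw [h2, hL, ← hrep]
    congr 1
    exact Finset.sum_coe_sort G fun ξ => a ξ • kvec q x y D ξ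
  -- the family of maps
  let T : EuclideanSpace ℝ D → E →ₗ[ℝ] PiLp p (fun _ : G => Y) := fun u =>
    ((WithLp.linearEquiv p ℝ (G → Y)).symm : (G → Y) →ₗ[ℝ] PiLp p (fun _ : G => Y)) ∘ₗ
      LinearMap.pi fun ξ : G => (c u ξ ^ (1 / q)) • (sop x y (ξ : E × E))
  have hTa : ∀ u v ξ, (T u v) ξ = c u ξ ^ (1 / q) • sop x y (ξ : E × E) v := fun u v ξ => rfl
  refine exists_linear_of_family hX hr hq0 T ?_ ?_
  · intro d
    have h1 : (fun u => T u d) = fun u => WithLp.toLp p fun ξ : G =>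
        c u ξ ^ (1 / q) • sop x y (ξ : E × E) (d : E) := rfl
    rw [h1]
    apply (PiLp.continuous_toLp p _).comp_continuousOn
    apply continuousOn_pi.2
    intro ξ
    apply ContinuousOn.smul _ continuousOn_const
    apply (hcc ξ).continuousOn.rpow_const
    intro u hu
    exact Or.inl (hrc u hu ξ).ne'
  · intro u hu d
    rw [PiLp.norm_eq_sum (by rw [← hq]; exact hq0), ← hq, ← Real.rpow_mul, one_div,
      inv_mul_cancel₀ hq0.ne', Real.rpow_one]
    · have h1 : ∀ ξ : G, ‖(T u d) ξ‖ ^ q = c u ξ * kvec q x y D ξ d := by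
        intro ξ
        rw [hTa, norm_smul, Real.mul_rpow (norm_nonneg _) (norm_nonneg _), Real.norm_eq_abs,
          abs_of_nonneg (Real.rpow_nonneg (hrc u hu ξ).le _),
          ← Real.rpow_mul (hrc u hu ξ).le, one_div, inv_mul_cancel₀ hq0.ne', Real.rpow_one]
        rfl
      rw [Finset.sum_congr rfl fun ξ _ => h1 ξ]
      have h2 := congrFun (hLc u) d
      rw [hL, Finset.sum_apply] at h2
      have h3 : (tvec q D + WithLp.ofLp u) d = ‖(d : E)‖ ^ q + u d := rfl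
      rw [h3] at h2
      rw [← h2]
      rfl
    · exact Finset.sum_nonneg fun ξ _ => Real.rpow_nonneg (norm_nonneg _) _

/-- the case `p = ∞` -/
theorem exists_linear_top [Nontrivial Y] (hX : ContainsSums ∞ Y X)
    (h0 : ∀ v ∈ D, v ≠ 0) (hD : ∀ v ∈ D, ∀ w ∈ D, v ≠ w → ∀ c : ℝ, v ≠ c • w) :
    ∃ S : E →ₗ[ℝ] X, ∀ d ∈ D, ‖S d‖ = ‖d‖ := by
  classical
  obtain ⟨y, hy⟩ := exists_norm_eq Y (c := (1 : ℝ)) zero_le_one
  -- strict Cauchy-Schwarz
  have hcs : ∀ d : D, ∀ w : D, d ≠ w → |⟪(d : E), (w : E)⟫| < ‖(d : E)‖ * ‖(w : E)‖ := by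
    intro d w hdw
    refine lt_of_le_of_ne (abs_real_inner_le_norm _ _) ?_
    intro h
    have h1 := (norm_inner_eq_norm_iff (𝕜 := ℝ) (h0 w w.2) (h0 d d.2)).1 (by
      rw [Real.norm_eq_abs, real_inner_comm, h, mul_comm])
    obtain ⟨c, _, hc⟩ := h1
    exact hD d d.2 w w.2 (fun hh => hdw (Subtype.ext hh)) c hc
  obtain ⟨r, hr, hr1, hrD⟩ : ∃ r : ℝ, 0 < r ∧ r < 1 ∧ ∀ d w : D, d ≠ w →
      (1 + r) * (|⟪(d : E), (w : E)⟫| / ‖(d : E)‖) ≤ (1 - r) * ‖(w : E)‖ := by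
    have h1 : ∀ d w : D, ∀ᶠ r in 𝓝[>] (0 : ℝ), d ≠ w →
        (1 + r) * (|⟪(d : E), (w : E)⟫| / ‖(d : E)‖) ≤ (1 - r) * ‖(w : E)‖ := by
      intro d w
      by_cases hdw : d = w
      · exact Eventually.of_forall fun r h => absurd hdw h
      · have hd0 : 0 < ‖(d : E)‖ := norm_pos_iff.2 (h0 d d.2)
        have h2 : |⟪(d : E), (w : E)⟫| / ‖(d : E)‖ < ‖(w : E)‖ := by
          rw [div_lt_iff₀ hd0, mul_comm]
          exact hcs d w hdw
        have c1 : Continuous fun r : ℝ => (1 + r) * (|⟪(d : E), (w : E)⟫| / ‖(d : E)‖) := by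
          fun_prop
        have c2 : Continuous fun r : ℝ => (1 - r) * ‖(w : E)‖ := by fun_prop
        have h3 : ∀ᶠ r in 𝓝 (0 : ℝ),
            (1 + r) * (|⟪(d : E), (w : E)⟫| / ‖(d : E)‖) < (1 - r) * ‖(w : E)‖ := by
          apply (c1.tendsto 0).eventually_lt (c2.tendsto 0)
          simpa using h2
        exact (h3.filter_mono nhdsWithin_le_nhds).mono fun r hr _ => hr.le
    have h2 : ∀ᶠ r in 𝓝[>] (0 : ℝ), ∀ d w : D, d ≠ w →
        (1 + r) * (|⟪(d : E), (w : E)⟫| / ‖(d : E)‖) ≤ (1 - r) * ‖(w : E)‖ := by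
      rw [Filter.eventually_all]
      intro d
      rw [Filter.eventually_all]
      intro w
      exact h1 d w
    have h3 : ∀ᶠ r in 𝓝[>] (0 : ℝ), r < 1 :=
      (show ∀ᶠ r in 𝓝 (0 : ℝ), r < 1 from gt_mem_nhds one_pos).filter_mono nhdsWithin_le_nhds
    obtain ⟨r, hr⟩ := (h2.and (h3.and self_mem_nhdsWithin)).exists
    exact ⟨r, hr.2.2, hr.2.1, hr.1⟩
  -- make the radius small with respect to the norms
  obtain ⟨m, hm0, hm⟩ : ∃ m : ℝ, 0 < m ∧ ∀ d : D, m ≤ ‖(d : E)‖ := by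
    by_cases hne : Nonempty D
    · obtain ⟨d, hd⟩ := Finite.exists_min fun d : D => ‖(d : E)‖
      exact ⟨‖(d : E)‖, norm_pos_iff.2 (h0 d d.2), hd⟩
    · exact ⟨1, one_pos, fun d => absurd ⟨d⟩ hne⟩
  let T : EuclideanSpace ℝ D → E →ₗ[ℝ] PiLp ∞ (fun _ : D => Y) := fun u =>
    ((WithLp.linearEquiv ∞ ℝ (D → Y)).symm : (D → Y) →ₗ[ℝ] PiLp ∞ (fun _ : D => Y)) ∘ₗ
      LinearMap.pi fun d : D => ((1 + u d / ‖(d : E)‖) / ‖(d : E)‖) •
        ((innerₗ E (d : E)).smulRight y)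
  have hTa : ∀ u v d, (T u v) d = ((1 + u d / ‖(d : E)‖) / ‖(d : E)‖) • (⟪(d : E), v⟫ • y) :=
    fun u v d => rfl
  refine exists_linear_of_family hX (r := r * m) (by positivity) one_pos T ?_ ?_
  · intro d
    have h1 : (fun u => T u d) = fun u => WithLp.toLp ∞ fun w : D =>
        ((1 + u w / ‖(w : E)‖) / ‖(w : E)‖) • (⟪(w : E), (d : E)⟫ • y) := rfl
    rw [h1]
    apply (PiLp.continuous_toLp ∞ _).comp_continuousOn
    apply continuousOn_pi.2
    intro w
    have : Continuous fun u : EuclideanSpace ℝ D =>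
        ((1 + u w / ‖(w : E)‖) / ‖(w : E)‖) • (⟪(w : E), (d : E)⟫ • y) := by fun_prop
    exact this.continuousOn
  · intro u hu w
    rw [Real.rpow_one, Real.rpow_one]
    have hw0 : 0 < ‖(w : E)‖ := norm_pos_iff.2 (h0 w w.2)
    have hub : ∀ d : D, |u d / ‖(d : E)‖| ≤ r := by
      intro d
      have hd0 : 0 < ‖(d : E)‖ := norm_pos_iff.2 (h0 d d.2)
      have h3 := PiLp.norm_apply_le u d
      rw [mem_closedBall_zero_iff] at hu
      rw [abs_div, abs_of_pos hd0, div_le_iff₀ hd0]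
      refine (h3.trans hu).trans ?_
      exact mul_le_mul_of_nonneg_left (hm d) hr.le
    have hmain : ‖(w : E)‖ + u w = (1 + u w / ‖(w : E)‖) * ‖(w : E)‖ := by
      rw [add_mul, one_mul, div_mul_cancel₀ _ hw0.ne']
    have hcoef : ∀ d : D, 0 < 1 + u d / ‖(d : E)‖ ∧ 1 - r ≤ 1 + u d / ‖(d : E)‖ ∧
        1 + u d / ‖(d : E)‖ ≤ 1 + r := by
      intro d
      have := abs_le.1 (hub d)
      refine ⟨by linarith, by linarith, by linarith⟩
    have hval : ∀ d : D, ‖(T u w) d‖ = (1 + u d / ‖(d : E)‖) * (|⟪(d : E), (w : E)⟫| / ‖(d : E)‖) := by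
      intro d
      have hd0 : 0 < ‖(d : E)‖ := norm_pos_iff.2 (h0 d d.2)
      rw [hTa, norm_smul, norm_smul, hy, mul_one, Real.norm_eq_abs, Real.norm_eq_abs,
        abs_of_pos (div_pos (hcoef d).1 hd0)]
      ring
    rw [PiLp.norm_eq_ciSup]
    apply le_antisymm
    · haveI : Nonempty D := ⟨w⟩
      apply ciSup_le
      intro d
      rw [hval, hmain]
      by_cases hdw : d = w
      · subst hdw
        rw [real_inner_self_eq_norm_sq, abs_of_nonneg (by positivity), pow_two,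
          mul_div_assoc, div_self hw0.ne', mul_one]
      · have h1 := hrD d w hdw
        have h2 : (1 + u d / ‖(d : E)‖) * (|⟪(d : E), (w : E)⟫| / ‖(d : E)‖) ≤
            (1 + r) * (|⟪(d : E), (w : E)⟫| / ‖(d : E)‖) :=
          mul_le_mul_of_nonneg_right (hcoef d).2.2 (by positivity)
        have h3 : (1 - r) * ‖(w : E)‖ ≤ (1 + u w / ‖(w : E)‖) * ‖(w : E)‖ :=
          mul_le_mul_of_nonneg_right (hcoef w).2.1 hw0.le
        linarith
    · have h1 : ‖(T u w) w‖ = ‖(w : E)‖ + u w := by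
        rw [hval, hmain, real_inner_self_eq_norm_sq, abs_of_nonneg (by positivity), pow_two,
          mul_div_assoc, div_self hw0.ne', mul_one]
      rw [← h1]
      exact le_ciSup (f := fun d => ‖(T u w) d‖) (Set.finite_range _).bddAbove w

/-- both cases -/
theorem exists_linear (hX : ContainsSums p Y X) (hpe : Flexible p Y)
    (h0 : ∀ v ∈ D, v ≠ 0) (hD : ∀ v ∈ D, ∀ w ∈ D, v ≠ w → ∀ c : ℝ, v ≠ c • w) :
    ∃ S : E →ₗ[ℝ] X, ∀ d ∈ D, ‖S d‖ = ‖d‖ := by
  rcases hpe with ⟨hpt, hY⟩ | ⟨hpt, x, y, hxy⟩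
  · subst hpt
    exact exists_linear_top hX h0 hD
  · exact exists_linear_finite hX hpt hxy h0 hD

/-- a linear map preserving the norm of finitely many vectors -/
theorem exists_linear_set (hX : ContainsSums p Y X) (hpe : Flexible p Y)
    {V : Set E} (hV : V.Finite) :
    ∃ S : E →ₗ[ℝ] X, ∀ v ∈ V, ‖S v‖ = ‖v‖ := by
  classical
  let rep : E → E := fun v => if h : v = 0 then 0 else (Projectivization.mk ℝ v h).rep
  let D : Finset E := (hV.toFinset.image rep).filter fun v => v ≠ 0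
  have h0 : ∀ v ∈ D, v ≠ 0 := fun v hv => (Finset.mem_filter.1 hv).2
  have hrep : ∀ v ∈ D, ∃ w : E, ∃ hw : w ≠ 0, w ∈ V ∧ v = (Projectivization.mk ℝ w hw).rep := by
    intro v hv
    obtain ⟨hv1, hv2⟩ := Finset.mem_filter.1 hv
    obtain ⟨w, hw, hwv⟩ := Finset.mem_image.1 hv1
    by_cases h : w = 0
    · simp only [rep, h, dif_pos] at hwv
      exact absurd hwv.symm hv2
    · refine ⟨w, h, hV.mem_toFinset.1 hw, ?_⟩
      rw [← hwv]
      simp only [rep, h, dif_neg, not_false_eq_true]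
  have hD : ∀ v ∈ D, ∀ w ∈ D, v ≠ w → ∀ c : ℝ, v ≠ c • w := by
    intro v hv w hw hvw c hc
    apply hvw
    obtain ⟨v', hv', _, rfl⟩ := hrep v hv
    obtain ⟨w', hw', _, rfl⟩ := hrep w hw
    congr 1
    rw [← Projectivization.mk_rep (Projectivization.mk ℝ v' hv'),
      ← Projectivization.mk_rep (Projectivization.mk ℝ w' hw'), Projectivization.mk_eq_mk_iff']
    exact ⟨c, hc.symm⟩
  obtain ⟨S, hS⟩ := exists_linear (E := E) (D := D) hX hpe h0 hD
  refine ⟨S, fun v hv => ?_⟩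
  by_cases hv0 : v = 0
  · rw [hv0, map_zero, norm_zero, norm_zero]
  · obtain ⟨c, hc⟩ := Projectivization.exists_smul_eq_mk_rep ℝ v hv0
    have hmem : (Projectivization.mk ℝ v hv0).rep ∈ D := by
      rw [Finset.mem_filter, Finset.mem_image]
      refine ⟨⟨v, hV.mem_toFinset.2 hv, ?_⟩, Projectivization.rep_nonzero _⟩
      simp only [rep, hv0, dif_neg, not_false_eq_true]
    have h1 := hS _ hmem
    rw [← hc, Units.smul_def, map_smul, norm_smul, norm_smul] at h1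
    exact mul_left_cancel₀ (norm_ne_zero_iff.2 c.ne_zero) h1

end

/-- **Main theorem.** -/
theorem exists_isometry {X Y : Type*} [NormedAddCommGroup X] [NormedSpace ℝ X]
    [NormedAddCommGroup Y] [NormedSpace ℝ Y] {p : ℝ≥0∞}
    [Fact (1 ≤ p)] (hX : ContainsSums p Y X) (hpe : Flexible p Y)
    {H : Type*} [NormedAddCommGroup H] [InnerProductSpace ℝ H] (A : Set H) (hA : A.Finite) :
    ∃ f : A → X, Isometry f := by
  classical
  let W : Submodule ℝ H := Submodule.span ℝ A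
  haveI : FiniteDimensional ℝ W := FiniteDimensional.span_of_finite ℝ hA
  let ι : A → W := fun a => ⟨a, Submodule.subset_span a.2⟩
  haveI : Finite A := hA
  let V : Set W := Set.range fun q : A × A => ι q.1 - ι q.2
  have hV : V.Finite := Set.finite_range _
  obtain ⟨S, hS⟩ := exists_linear_set (E := W) hX hpe hV
  refine ⟨fun a => S (ι a), Isometry.of_dist_eq fun a b => ?_⟩
  rw [dist_eq_norm, ← map_sub, hS _ ⟨(a, b), rfl⟩]
  rw [Subtype.dist_eq, dist_eq_norm]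
  rfl

/-- every nonzero space is flexible when `p` is not an even integer -/
theorem flexible_of_ne_even {p : ℝ≥0∞} {Y : Type*} [NormedAddCommGroup Y] [NormedSpace ℝ Y]
    [Nontrivial Y] (hpe : ∀ k : ℕ, p ≠ 2 * k) : Flexible p Y := by
  by_cases hpt : p = ∞
  · exact Or.inl ⟨hpt, inferInstance⟩
  · obtain ⟨y, hy⟩ := exists_norm_eq Y (c := (1 : ℝ)) zero_le_one
    refine Or.inr ⟨hpt, 0, y, ?_⟩
    rintro ⟨P, hP⟩
    have h1 : AnalyticAt ℝ (fun t : ℝ => 1 * |t| ^ p.toReal) 0 := by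
      have h2 : (fun t : ℝ => 1 * |t| ^ p.toReal) = fun t => P.eval t := by
        ext t
        rw [← hP t, one_mul, zero_add, norm_smul, hy, mul_one, Real.norm_eq_abs]
      rw [h2]
      exact AnalyticAt.aeval_polynomial (analyticAt_id (𝕜 := ℝ) (z := (0 : ℝ))) P
    obtain ⟨k, hk⟩ := even_of_analyticAt one_ne_zero h1
    apply hpe k
    rw [← ENNReal.ofReal_toReal hpt, hk, ENNReal.ofReal_mul (by norm_num),
      ENNReal.ofReal_natCast, ENNReal.ofReal_ofNat]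

/-- for `p = 2` every normed space that violates the parallelogram law is flexible -/
theorem flexible_two {Y : Type*} [NormedAddCommGroup Y] [NormedSpace ℝ Y]
    (hY : ∃ x y : Y, ‖x + y‖ ^ 2 + ‖x - y‖ ^ 2 ≠ 2 * (‖x‖ ^ 2 + ‖y‖ ^ 2)) : Flexible 2 Y := by
  refine Or.inr ⟨by norm_num, ?_⟩
  by_contra hcon
  push Not at hcon
  obtain ⟨x, y, hxy⟩ := hY
  apply hxy
  obtain ⟨P, hP⟩ := hcon x y
  obtain ⟨Q, hQ⟩ := hcon y x
  have e2 : (2 : ℝ≥0∞).toReal = ((2 : ℕ) : ℝ) := by norm_num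
  simp only [e2, Real.rpow_natCast] at hP hQ
  -- `P t / t ^ 2 → ‖y‖ ^ 2`
  have hlim : Tendsto (fun t : ℝ => P.eval t / t ^ 2) atTop (𝓝 (‖y‖ ^ 2)) := by
    have h1 : Tendsto (fun t : ℝ => Q.eval t⁻¹) atTop (𝓝 (Q.eval 0)) :=
      (Q.continuous.tendsto 0).comp tendsto_inv_atTop_zero
    have h2 : Q.eval 0 = ‖y‖ ^ 2 := by
      rw [← hQ 0, zero_smul, add_zero]
    rw [h2] at h1
    apply h1.congr'
    filter_upwards [eventually_gt_atTop 0] with t ht
    rw [← hQ, ← hP]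
    have h3 : x + t • y = t • (y + t⁻¹ • x) := by
      rw [smul_add, smul_smul, mul_inv_cancel₀ ht.ne', one_smul, add_comm]
    rw [h3, norm_smul, mul_pow, Real.norm_eq_abs, sq_abs]
    field_simp
  have hdeg : P.natDegree ≤ 2 := by
    by_contra h
    push Not at h
    have hd : (Polynomial.X ^ 2 : Polynomial ℝ).degree < P.degree := by
      apply Polynomial.degree_lt_degree
      rw [Polynomial.natDegree_X_pow]
      exact h
    have h1 := Polynomial.abs_div_tendsto_atTop_atTop_of_degree_gt P (Polynomial.X ^ 2) hd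
      (pow_ne_zero 2 Polynomial.X_ne_zero)
    simp only [Polynomial.eval_pow, Polynomial.eval_X] at h1
    exact not_tendsto_nhds_of_tendsto_atTop h1 _ hlim.abs
  have hP2 : ∀ t, P.eval t = P.coeff 0 + P.coeff 1 * t + P.coeff 2 * t ^ 2 := by
    intro t
    rw [Polynomial.eval_eq_sum_range' (show P.natDegree < 3 by omega)]
    simp [Finset.sum_range_succ]
  have hc : P.coeff 2 = ‖y‖ ^ 2 := by
    have h1 : Tendsto (fun t : ℝ => P.eval t / t ^ 2) atTop (𝓝 (0 + 0 + P.coeff 2)) := by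
      have h2 : Tendsto (fun t : ℝ => P.coeff 0 * (t⁻¹) ^ 2 + P.coeff 1 * t⁻¹ + P.coeff 2) atTop
          (𝓝 (0 + 0 + P.coeff 2)) := by
        apply Tendsto.add_const
        apply Tendsto.add
        · have := (tendsto_inv_atTop_zero (𝕜 := ℝ)).pow 2
          have h3 := this.const_mul (P.coeff 0)
          simpa using h3
        · have h3 := (tendsto_inv_atTop_zero (𝕜 := ℝ)).const_mul (P.coeff 1)
          simpa using h3
      apply h2.congr'
      filter_upwards [eventually_gt_atTop 0] with t ht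
      rw [hP2]
      field_simp
    rw [zero_add, zero_add] at h1
    exact tendsto_nhds_unique h1 hlim
  have h0 : P.coeff 0 = ‖x‖ ^ 2 := by
    have h1 := hP 0
    have h2 := hP2 0
    rw [zero_smul, add_zero] at h1
    rw [h1, h2]
    ring
  have hp1 := hP 1
  have hm1 := hP (-1)
  rw [one_smul] at hp1
  rw [neg_one_smul, ← sub_eq_add_neg] at hm1
  rw [hp1, hm1, hP2, hP2, hc, h0]
  ring

end Pool.Agent.Lib.P23d34e
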