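import Mathlib
import Pool.Agent.Lib.P23d34e.EmbedY

/-!
# Even exponents: sets with few directions

The cone argument of `ConeY` and `EmbedY` with linear independence of the functions
`ξ ↦ ‖S_ξ v‖ ^ p` as the hypothesis, and this independence for even `p` and at most `p + 1`
directions.
-/

set_option autoImplicit false

open Topology Filter Set MeasureTheory Metric
open scoped InnerProductSpace RealInnerProductSpace ENNReal NNReal

namespace Pool.Agent.Lib.P23d34e.Ev

open Pool.Agent.Lib.P23d34e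

/-- the functions `ξ ↦ ‖S_ξ v‖ ^ p`, `v ∈ D`, are linearly independent -/
def Ind {E : Type*} [NormedAddCommGroup E] [InnerProductSpace ℝ E] {Y : Type*}
    [NormedAddCommGroup Y] [NormedSpace ℝ Y] (p : ℝ) (x y : Y) (D : Finset E) : Prop :=
  ∀ lam : E → ℝ, (∀ ξ : E × E, ∑ v ∈ D, lam v * ‖⟪ξ.1, v⟫ • x + ⟪ξ.2, v⟫ • y‖ ^ p = 0) →
    ∀ v ∈ D, lam v = 0

section Cone

variable {E : Type*} [NormedAddCommGroup E] [InnerProductSpace ℝ E]
variable {Y : Type*} [NormedAddCommGroup Y] [NormedSpace ℝ Y]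
variable {p : ℝ} {D : Finset E} {x y : Y}

/-- a functional vanishing on all the vectors `kvec p x y D ξ` vanishes -/
lemma functional_zero (_hp : 0 < p)
    (hind : Ind p x y D)
    (f : (D → ℝ) →ₗ[ℝ] ℝ) (hf : ∀ ξ, f (kvec p x y D ξ) = 0) : f = 0 := by
  classical
  let lam : E → ℝ := fun v => if h : v ∈ D then f (Pi.single (⟨v, h⟩ : D) 1) else 0
  have h1 : ∀ x : D → ℝ, f x = ∑ v : D, x v * f (Pi.single v 1) := by
    intro x
    have := f.pi_apply_eq_sum_univ x
    rw [this]
    apply Finset.sum_congr rfl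
    intro v _
    rw [smul_eq_mul]
    congr 2
    ext w
    rw [Pi.single_apply]
    simp [eq_comm]
  have h2 := hind lam (fun ξ => by
    have h3 := hf ξ
    rw [h1] at h3
    show ∑ v ∈ D, lam v * ‖sop x y ξ v‖ ^ p = 0
    rw [← Finset.sum_coe_sort D (fun v => lam v * ‖sop x y ξ v‖ ^ p)]
    rw [← h3]
    apply Finset.sum_congr rfl
    intro v _
    simp only [lam, v.2, dif_pos, kvec]
    rw [mul_comm])
  apply LinearMap.ext
  intro x
  rw [h1]
  apply Finset.sum_eq_zero
  intro v _
  have h4 := h2 v v.2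
  simp only [lam, v.2, dif_pos] at h4
  have h5 : f (Pi.single v 1) = 0 := h4
  rw [h5, mul_zero]

lemma span_kvec (hp : 0 < p)
    (hind : Ind p x y D) :
    Submodule.span ℝ (Set.range (kvec p x y D)) = ⊤ := by
  by_contra hne
  obtain ⟨f, hf0, hf⟩ := Submodule.exists_le_ker_of_lt_top _ (lt_top_iff_ne_top.2 hne)
  apply hf0
  apply functional_zero hp hind
  intro ξ
  exact hf (Submodule.subset_span ⟨ξ, rfl⟩)

lemma interior_cone_nonempty (hp : 0 < p)
    (hind : Ind p x y D) :
    (interior (cone p x y D : Set (D → ℝ))).Nonempty := by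
  have hne : (cone p x y D : Set (D → ℝ)).Nonempty := ⟨0, (cone p x y D).zero_mem⟩
  rw [(convex_cone p x y D).interior_nonempty_iff_affineSpan_eq_top,
    AffineSubspace.affineSpan_eq_top_iff_vectorSpan_eq_top_of_nonempty ℝ _ _ hne, eq_top_iff,
    ← span_kvec hp hind, Submodule.span_le]
  rintro _ ⟨ξ, rfl⟩
  have := vsub_mem_vectorSpan ℝ (s := (cone p x y D : Set (D → ℝ))) (kvec_mem_cone p x y D ξ)
    ((cone p x y D).zero_mem)
  simpa using this

end Cone

section Interior

variable {E : Type*} [NormedAddCommGroup E] [InnerProductSpace ℝ E] [FiniteDimensional ℝ E]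
variable {Y : Type*} [NormedAddCommGroup Y] [NormedSpace ℝ Y]
variable {p : ℝ} {D : Finset E} {x y : Y}

lemma tvec_mem_interior (hp : 0 < p)
    (hind : Ind p x y D) :
    tvec p D ∈ interior (cone p x y D : Set (D → ℝ)) := by
  classical
  letI : MeasurableSpace E := borel E
  haveI : BorelSpace E := ⟨rfl⟩
  by_contra hcon
  obtain ⟨f, hf⟩ := geometric_hahn_banach_open_point (convex_cone p x y D).interior isOpen_interior hcon
  obtain ⟨a, ha⟩ := interior_cone_nonempty hp hind
  -- `f ≤ 0` on the cone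
  have hle : ∀ c ∈ cone p x y D, f c ≤ 0 := by
    intro c hc
    by_contra hpos
    push Not at hpos
    obtain ⟨n, hn⟩ := exists_nat_gt ((f (tvec p D) - f a) / f c)
    have hmem : a + (n : ℝ) • c ∈ interior (cone p x y D : Set (D → ℝ)) := by
      have hopen : IsOpen ((fun x => x + (n : ℝ) • c) '' interior (cone p x y D : Set (D → ℝ))) :=
        (Homeomorph.addRight ((n : ℝ) • c)).isOpenMap _ isOpen_interior
      have hsub : ((fun x => x + (n : ℝ) • c) '' interior (cone p x y D : Set (D → ℝ))) ⊆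
          (cone p x y D : Set (D → ℝ)) := by
        rintro _ ⟨z, hz, rfl⟩
        exact (cone p x y D).add_mem (interior_subset hz) (cone_smul_mem hc (Nat.cast_nonneg n))
      exact interior_maximal hsub hopen ⟨a, ha, rfl⟩
    have h1 := hf _ hmem
    rw [map_add, map_smul, smul_eq_mul] at h1
    rw [div_lt_iff₀ hpos] at hn
    linarith
  -- `0 ≤ f τ`
  have hge : 0 ≤ f (tvec p D) := by
    by_contra hneg
    push Not at hneg
    have hfa : f a < 0 := (hf a ha).trans hneg
    set t : ℝ := f (tvec p D) / (2 * f a) with ht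
    have ht0 : 0 < t := div_pos_of_neg_of_neg hneg (by linarith)
    have hmem : t • a ∈ interior (cone p x y D : Set (D → ℝ)) := by
      have hopen : IsOpen ((fun x => t • x) '' interior (cone p x y D : Set (D → ℝ))) :=
        (Homeomorph.smulOfNeZero t ht0.ne').isOpenMap _ isOpen_interior
      have hsub : ((fun x => t • x) '' interior (cone p x y D : Set (D → ℝ))) ⊆
          (cone p x y D : Set (D → ℝ)) := by
        rintro _ ⟨x, hx, rfl⟩
        exact cone_smul_mem (interior_subset hx) ht0.le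
      exact interior_maximal hsub hopen ⟨a, ha, rfl⟩
    have h1 := hf _ hmem
    rw [map_smul, smul_eq_mul, ht, div_mul_eq_mul_div, div_lt_iff_of_neg (by linarith)] at h1
    nlinarith
  -- integrate
  obtain ⟨κ, hκ, hint⟩ := exists_ballInt_eq (E := E) p hp x y
  have hrep : ∀ x : D → ℝ, f x = ∑ v : D, x v * f (Pi.single v 1) := by
    intro x
    have := (f : (D → ℝ) →ₗ[ℝ] ℝ).pi_apply_eq_sum_univ x
    rw [ContinuousLinearMap.coe_coe] at this
    rw [this]
    apply Finset.sum_congr rfl
    intro v _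
    rw [smul_eq_mul]
    congr 2
    ext w
    rw [Pi.single_apply]
    simp [eq_comm]
  have hcont : Continuous fun ξ : E × E => f (kvec p x y D ξ) := by
    apply f.continuous.comp
    exact continuous_pi fun v => cont_sop_rpow hp x y (v : E)
  have hI : ∫ ξ in closedBall (0 : E × E) 1, f (kvec p x y D ξ) = κ * f (tvec p D) := by
    have h1 : ∀ ξ : E × E, f (kvec p x y D ξ) = ∑ v : D, ‖sop x y ξ (v : E)‖ ^ p * f (Pi.single v 1) :=
      fun ξ => hrep _
    simp only [h1]
    rw [integral_finsetSum]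
    · rw [hrep, Finset.mul_sum]
      apply Finset.sum_congr rfl
      intro v _
      rw [integral_mul_const]
      have := hint (v : E)
      unfold ballInt at this
      rw [this]
      simp only [tvec]
      ring
    · intro v _
      exact (((cont_sop_rpow hp x y (v : E)).mul continuous_const).continuousOn).integrableOn_compact
        (isCompact_closedBall _ _)
  have hI0 : ∫ ξ in closedBall (0 : E × E) 1, -f (kvec p x y D ξ) = 0 := by
    rw [integral_neg, hI]
    have h1 : 0 ≤ ∫ ξ in closedBall (0 : E × E) 1, -f (kvec p x y D ξ) :=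
      integral_nonneg fun ξ => neg_nonneg.2 (hle _ (kvec_mem_cone p x y D ξ))
    rw [integral_neg, hI] at h1
    have h2 := mul_nonneg hκ hge
    linarith
  have hae : (fun ξ : E × E => -f (kvec p x y D ξ)) =ᵐ[volume.restrict (closedBall (0 : E × E) 1)] 0 := by
    rw [setIntegral_eq_zero_iff_of_nonneg_ae] at hI0
    · exact hI0
    · exact Eventually.of_forall fun ξ => neg_nonneg.2 (hle _ (kvec_mem_cone p x y D ξ))
    · exact hcont.neg.continuousOn.integrableOn_compact (isCompact_closedBall _ _)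
  have hball : ∀ ξ ∈ ball (0 : E × E) 1, f (kvec p x y D ξ) = 0 := by
    intro ξ hξ
    have h1 := Measure.eqOn_open_of_ae_eq (μ := volume)
      (ae_restrict_of_ae_restrict_of_subset ball_subset_closedBall hae) isOpen_ball
      hcont.neg.continuousOn continuousOn_const hξ
    have h2 : -f (kvec p x y D ξ) = 0 := h1
    linarith
  have hall : ∀ ξ : E × E, f (kvec p x y D ξ) = 0 := by
    intro ξ
    obtain ⟨t, ht, htb⟩ : ∃ t : ℝ, 0 < t ∧ t • ξ ∈ ball (0 : E × E) 1 := by
      refine ⟨(1 + ‖ξ‖)⁻¹, by positivity, ?_⟩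
      rw [mem_ball_zero_iff, norm_smul, norm_inv, Real.norm_eq_abs, abs_of_pos (by positivity),
        inv_mul_lt_iff₀ (by positivity)]
      linarith
    have h1 := hball _ htb
    have h2 : kvec p x y D (t • ξ) = t ^ p • kvec p x y D ξ := by
      ext v
      simp only [kvec, Pi.smul_apply, smul_eq_mul]
      have h3 : sop x y (t • ξ) (v : E) = t • sop x y ξ (v : E) := by
        rw [sop_apply, sop_apply, Prod.smul_fst, Prod.smul_snd, inner_smul_left, inner_smul_left,
          smul_add, smul_smul, smul_smul]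
        rfl
      rw [h3, norm_smul, Real.mul_rpow (norm_nonneg _) (norm_nonneg _), Real.norm_eq_abs,
        abs_of_pos ht]
    rw [h2, map_smul, smul_eq_mul] at h1
    exact (mul_eq_zero.1 h1).resolve_left (Real.rpow_pos_of_pos ht p).ne'
  have hf0 := functional_zero hp hind (f : (D → ℝ) →ₗ[ℝ] ℝ) hall
  have h1 := hf a ha
  have h2 : ∀ x, f x = 0 := fun x => by
    have := congrArg (fun g : (D → ℝ) →ₗ[ℝ] ℝ => g x) hf0
    simpa using this
  rw [h2, h2] at h1
  exact lt_irrefl _ h1

/-- a representation of `‖v‖ ^ p` with positive coefficients and spanning vectors -/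
theorem exists_rep (hp : 0 < p)
    (hind : Ind p x y D) :
    ∃ (G : Finset (E × E)) (a : E × E → ℝ), (∀ ξ ∈ G, 0 < a ξ) ∧
      (∑ ξ ∈ G, a ξ • kvec p x y D ξ = tvec p D) ∧
      Submodule.span ℝ (kvec p x y D '' (G : Set (E × E))) = ⊤ := by
  classical
  -- a finite spanning family
  obtain ⟨F, hF⟩ : ∃ F : Finset (E × E), Submodule.span ℝ (kvec p x y D '' (F : Set (E × E))) = ⊤ := by
    have h1 := span_kvec hp hind
    have h2 : (⊤ : Submodule ℝ (D → ℝ)).FG := Module.finite_def.1 inferInstance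
    rw [← h1] at h2
    obtain ⟨T, hT, hT2⟩ := Submodule.fg_span_iff_fg_span_finset_subset _ |>.1 h2
    obtain ⟨F, hF⟩ : ∃ F : Finset (E × E), kvec p x y D '' (F : Set (E × E)) = T := by
      choose g hg using fun x : T => hT x.2
      refine ⟨Finset.univ.image g, ?_⟩
      ext x
      simp only [Finset.coe_image, Finset.coe_univ, Set.image_univ, Set.mem_image, Set.mem_range]
      constructor
      · rintro ⟨_, ⟨y, rfl⟩, rfl⟩
        rw [hg y]
        exact y.2
      · intro hx
        exact ⟨g ⟨x, hx⟩, ⟨_, rfl⟩, hg ⟨x, hx⟩⟩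
    refine ⟨F, ?_⟩
    rw [hF, ← hT2, h1]
  -- subtract a small multiple of their sum
  set σ : D → ℝ := ∑ ξ ∈ F, kvec p x y D ξ with hσ
  have hmem := tvec_mem_interior hp hind
  obtain ⟨s, hs, hsm⟩ : ∃ s : ℝ, 0 < s ∧ tvec p D - s • σ ∈ cone p x y D := by
    have h1 : Tendsto (fun s : ℝ => tvec p D - s • σ) (𝓝[>] 0) (𝓝 (tvec p D)) := by
      have h2 : Continuous fun s : ℝ => tvec p D - s • σ := by fun_prop
      have h3 := h2.tendsto 0
      rw [zero_smul, sub_zero] at h3
      exact h3.mono_left nhdsWithin_le_nhds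
    have h4 := h1.eventually (mem_interior_iff_mem_nhds.1 hmem)
    obtain ⟨s, hs, hs0⟩ := (h4.and self_mem_nhdsWithin).exists
    exact ⟨s, hs0, hs⟩
  -- coefficients
  obtain ⟨b, hb⟩ := (Finsupp.mem_span_range_iff_exists_finsupp (R := NNReal)).1 hsm
  refine ⟨F ∪ b.support, fun ξ => (if ξ ∈ F then s else 0) + b ξ, ?_, ?_, ?_⟩
  · intro ξ hξ
    rw [Finset.mem_union] at hξ
    beta_reduce
    by_cases h : ξ ∈ F
    · rw [if_pos h]
      have : (0 : ℝ) ≤ b ξ := (b ξ).2
      linarith
    · rw [if_neg h, zero_add]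
      have h1 := hξ.resolve_left h
      rw [Finsupp.mem_support_iff] at h1
      exact lt_of_le_of_ne (b ξ).2 (fun h2 => h1 (NNReal.eq h2.symm))
  · simp only [add_smul, Finset.sum_add_distrib]
    have e1 : ∑ ξ ∈ F ∪ b.support, (if ξ ∈ F then s else 0) • kvec p x y D ξ = s • σ := by
      rw [hσ, Finset.smul_sum, ← Finset.sum_subset (Finset.subset_union_left (s₂ := b.support))]
      · apply Finset.sum_congr rfl
        intro ξ hξ
        rw [if_pos hξ]
      · intro ξ _ hξ
        rw [if_neg hξ, zero_smul]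
    have e2 : ∑ ξ ∈ F ∪ b.support, ((b ξ : NNReal) : ℝ) • kvec p x y D ξ = tvec p D - s • σ := by
      rw [← hb, Finsupp.sum, ← Finset.sum_subset (Finset.subset_union_right (s₁ := F))]
      · rfl
      · intro ξ _ hξ
        rw [Finsupp.notMem_support_iff] at hξ
        rw [hξ, NNReal.coe_zero, zero_smul]
    rw [e1, e2]
    abel
  · rw [eq_top_iff, ← hF]
    apply Submodule.span_mono
    apply Set.image_mono
    intro ξ hξ
    exact Finset.mem_coe.2 (Finset.mem_union_left _ hξ)

end Interior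

section

variable {X : Type*} [NormedAddCommGroup X] [NormedSpace ℝ X] {p : ℝ≥0∞} [Fact (1 ≤ p)]
  {Y : Type*} [NormedAddCommGroup Y] [NormedSpace ℝ Y]
  {E : Type*} [NormedAddCommGroup E] [InnerProductSpace ℝ E] [FiniteDimensional ℝ E]
  {D : Finset E}

/-- the case of finite `p` -/
theorem exists_linear_finite (hX : ContainsSums p Y X) (hpt : p ≠ ∞) {x y : Y}
    (hind : Ind p.toReal x y D) :
    ∃ S : E →ₗ[ℝ] X, ∀ d ∈ D, ‖S d‖ = ‖d‖ := by
  classical
  set q : ℝ := p.toReal with hq
  have hp1 : 1 ≤ p := Fact.out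
  have hp0 : p ≠ 0 := (zero_lt_one.trans_le hp1).ne'
  have hq0 : 0 < q := ENNReal.toReal_pos hp0 hpt
  obtain ⟨G, a, ha, hrep, hspan⟩ := exists_rep hq0 hind
  -- the map from coefficients to values
  let L : (G → ℝ) →ₗ[ℝ] (D → ℝ) := Fintype.linearCombination ℝ fun ξ : G => kvec q x y D ξ
  have hL : ∀ c, L c = ∑ ξ : G, c ξ • kvec q x y D ξ := fun c => rfl
  have hsurj : LinearMap.range L = ⊤ := by
    rw [Fintype.range_linearCombination, ← hspan]
    congr 1
    ext x
    simp
  obtain ⟨R, hR⟩ := L.exists_rightInverse_of_surjective hsurj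
  have hRc : Continuous fun u : EuclideanSpace ℝ D => R (WithLp.ofLp u) :=
    R.continuous_of_finiteDimensional.comp (PiLp.continuous_ofLp 2 _)
  let c : EuclideanSpace ℝ D → G → ℝ := fun u ξ => a ξ + R (WithLp.ofLp u) ξ
  have hcc : ∀ ξ, Continuous fun u => c u ξ := by
    intro ξ
    exact continuous_const.add ((continuous_apply ξ).comp hRc)
  have hc0 : c 0 = fun ξ : G => a ξ := by
    ext ξ
    simp [c]
  obtain ⟨r, hr, hrc⟩ : ∃ r : ℝ, 0 < r ∧ ∀ u ∈ closedBall (0 : EuclideanSpace ℝ D) r, ∀ ξ,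
      0 < c u ξ := by
    have h1 : ∀ᶠ u in 𝓝 (0 : EuclideanSpace ℝ D), ∀ ξ, 0 < c u ξ := by
      rw [Filter.eventually_all]
      intro ξ
      have h2 := (hcc ξ).tendsto 0
      apply h2.eventually (lt_mem_nhds _)
      rw [hc0]
      exact ha ξ ξ.2
    obtain ⟨r, hr, h3⟩ := Metric.nhds_basis_closedBall.eventually_iff.1 h1
    exact ⟨r, hr, fun u hu => h3 hu⟩
  have hLc : ∀ u : EuclideanSpace ℝ D, L (c u) = tvec q D + WithLp.ofLp u := by
    intro u
    have h1 : c u = (fun ξ : G => a ξ) + R (WithLp.ofLp u) := rfl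
    rw [h1, map_add]
    have h2 : L (R (WithLp.ofLp u)) = WithLp.ofLp u := by
      have := LinearMap.congr_fun hR (WithLp.ofLp u)
      simpa using this
    rw [h2, hL, ← hrep]
    congr 1
    exact Finset.sum_coe_sort G fun ξ => a ξ • kvec q x y D ξ
  -- the family of maps
  let T : EuclideanSpace ℝ D → E →ₗ[ℝ] PiLp p (fun _ : G => Y) := fun u =>
    ((WithLp.linearEquiv p ℝ (G → Y)).symm : (G → Y) →ₗ[ℝ] PiLp p (fun _ : G => Y)) ∘ₗ
      LinearMap.pi fun ξ : G => (c u ξ ^ (1 / q)) • (sop x y (ξ : E × E))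
  have hTa : ∀ u v ξ, (T u v) ξ = c u ξ ^ (1 / q) • sop x y (ξ : E × E) v := fun u v ξ => rfl
  refine exists_linear_of_family hX hr hq0 T ?_ ?_
  · intro d
    have h1 : (fun u => T u d) = fun u => WithLp.toLp p fun ξ : G =>
        c u ξ ^ (1 / q) • sop x y (ξ : E × E) (d : E) := rfl
    rw [h1]
    apply (PiLp.continuous_toLp p _).comp_continuousOn
    apply continuousOn_pi.2
    intro ξ
    apply ContinuousOn.smul _ continuousOn_const
    apply (hcc ξ).continuousOn.rpow_const
    intro u hu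
    exact Or.inl (hrc u hu ξ).ne'
  · intro u hu d
    rw [PiLp.norm_eq_sum (by rw [← hq]; exact hq0), ← hq, ← Real.rpow_mul, one_div,
      inv_mul_cancel₀ hq0.ne', Real.rpow_one]
    · have h1 : ∀ ξ : G, ‖(T u d) ξ‖ ^ q = c u ξ * kvec q x y D ξ d := by
        intro ξ
        rw [hTa, norm_smul, Real.mul_rpow (norm_nonneg _) (norm_nonneg _), Real.norm_eq_abs,
          abs_of_nonneg (Real.rpow_nonneg (hrc u hu ξ).le _),
          ← Real.rpow_mul (hrc u hu ξ).le, one_div, inv_mul_cancel₀ hq0.ne', Real.rpow_one]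
        rfl
      rw [Finset.sum_congr rfl fun ξ _ => h1 ξ]
      have h2 := congrFun (hLc u) d
      rw [hL, Finset.sum_apply] at h2
      have h3 : (tvec q D + WithLp.ofLp u) d = ‖(d : E)‖ ^ q + u d := rfl
      rw [h3] at h2
      rw [← h2]
      rfl
    · exact Finset.sum_nonneg fun ξ _ => Real.rpow_nonneg (norm_nonneg _) _

end

section Powers

variable {E : Type*} [NormedAddCommGroup E] [InnerProductSpace ℝ E]

/-- the functions `ξ ↦ ⟨ξ, v⟩ ^ m`, `v ∈ D`, are linearly independent -/
def PowInd (m : ℕ) (D : Finset E) : Prop :=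
  ∀ lam : E → ℝ, (∀ ξ : E, ∑ v ∈ D, lam v * ⟪ξ, v⟫ ^ m = 0) → ∀ v ∈ D, lam v = 0

/-- at most `m + 1` pairwise non-proportional vectors have independent `m`-th powers -/
theorem powInd_of_card {m : ℕ} {D : Finset E} (h0 : ∀ v ∈ D, v ≠ 0)
    (hD : ∀ v ∈ D, ∀ w ∈ D, v ≠ w → ∀ c : ℝ, v ≠ c • w) (hc : D.card ≤ m + 1) :
    PowInd m D := by
  classical
  intro lam h d hd
  have hd0 := h0 d hd
  obtain ⟨e₀, he₀⟩ : ∃ e : E, ⟪e, d⟫ = 1 := by
    refine ⟨(‖d‖ ^ 2)⁻¹ • d, ?_⟩
    rw [inner_smul_left, real_inner_self_eq_norm_sq]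
    have : 0 < ‖d‖ := norm_pos_iff.2 hd0
    exact inv_mul_cancel₀ (by positivity)
  have hW : ∀ w ∈ D.erase d, ∃ e : E, ⟪e, w⟫ = 0 ∧ ⟪e, d⟫ = 1 := by
    intro w hw
    exact exists_dual hd0 (hD d hd w (Finset.mem_of_mem_erase hw) (Finset.ne_of_mem_erase hw).symm)
  have h1 := diff_zero ⟨e₀, he₀⟩ 1 (D.erase d) hW
    (fun w t => lam w * t ^ m) (fun t => lam d * t ^ m) (by
      intro ξ
      have h2 := h ξ
      rw [← Finset.add_sum_erase D _ hd] at h2
      exact h2)
  have hcard : (D.erase d).card ≤ m := by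
    rw [Finset.card_erase_of_mem hd]
    omega
  obtain ⟨j, hj⟩ := Nat.exists_eq_add_of_le hcard
  have h2 : (fwdDiff (1 : ℝ))^[(D.erase d).card] (fun t : ℝ => lam d * t ^ m) = 0 := funext h1
  have aux : ∀ j : ℕ, (fwdDiff (1 : ℝ))^[j] (0 : ℝ → ℝ) = 0 := by
    intro j
    induction j with
    | zero => rfl
    | succ j ih =>
      rw [Function.iterate_succ_apply', ih]
      funext t
      simp [fwdDiff]
  have h3 : (fwdDiff (1 : ℝ))^[j + (D.erase d).card] (fun t : ℝ => lam d * t ^ m) = 0 := by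
    rw [Function.iterate_add_apply, h2]
    exact aux j
  have hj' : j + (D.erase d).card = m := by omega
  rw [hj'] at h3
  have h4 : (fwdDiff (1 : ℝ))^[m] (fun t : ℝ => lam d * t ^ m) = fun _ => lam d * (m.factorial : ℝ) := by
    have h5 := fwdDiff_iter_eq_factorial (R := ℝ) (n := m)
    have h6 := fwdDiff_iter_const_smul (1 : ℝ) (lam d) (fun t : ℝ => t ^ m) m
    have h7 : (fun t : ℝ => lam d * t ^ m) = lam d • fun t : ℝ => t ^ m := by
      funext t
      rfl
    rw [h7, h6, h5]
    rfl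
  rw [h4] at h3
  have h8 := congrFun h3 0
  have h9 : lam d * (m.factorial : ℝ) = 0 := h8
  rcases mul_eq_zero.1 h9 with h | h
  · exact h
  · exact absurd h (by exact_mod_cast m.factorial_ne_zero)

theorem ind_of_powInd {Y : Type*} [NormedAddCommGroup Y] [NormedSpace ℝ Y] {k : ℕ} {y : Y}
    (hy : ‖y‖ = 1) {D : Finset E} (h : PowInd (2 * k) D) :
    Ind (((2 * k : ℕ) : ℝ)) (0 : Y) y D := by
  intro lam hl
  apply h lam
  intro ξ
  rw [← hl (0, ξ)]
  apply Finset.sum_congr rfl
  intro v _
  rw [smul_zero, zero_add, norm_smul, hy, mul_one, Real.rpow_natCast, Real.norm_eq_abs, pow_mul,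
    pow_mul, sq_abs]

end Powers

/-- **Even exponents.** -/
theorem exists_isometry_even {X Y : Type*} [NormedAddCommGroup X] [NormedSpace ℝ X]
    [NormedAddCommGroup Y] [NormedSpace ℝ Y] [Nontrivial Y] {p : ℝ≥0∞} [Fact (1 ≤ p)] {k : ℕ}
    (hp : p = 2 * k) (hX : ContainsSums p Y X)
    {H : Type*} [NormedAddCommGroup H] [InnerProductSpace ℝ H] (A : Set H) (hA : A.Finite)
    (D : Finset H) (hAD : ∀ a ∈ A, ∀ b ∈ A, ∃ v ∈ D, ∃ t : ℝ, a - b = t • v)
    (hD : D.card ≤ 2 * k + 1 ∨ PowInd (2 * k) D) :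
    ∃ f : A → X, Isometry f := by
  classical
  let W : Submodule ℝ H := Submodule.span ℝ A
  haveI : FiniteDimensional ℝ W := FiniteDimensional.span_of_finite ℝ hA
  let ι : A → W := fun a => ⟨a, Submodule.subset_span a.2⟩
  haveI : Finite A := hA
  obtain ⟨y, hy⟩ := exists_norm_eq Y (c := (1 : ℝ)) zero_le_one
  have hk : p.toReal = ((2 * k : ℕ) : ℝ) := by
    rw [hp]
    simp
  have hpt : p ≠ ∞ := by
    rw [hp]
    exact ENNReal.mul_ne_top (by norm_num) (ENNReal.natCast_ne_top k)
  obtain ⟨DW, hDW, hcov⟩ : ∃ DW : Finset W, PowInd (2 * k) DW ∧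
      ∀ a b : A, a ≠ b → ∃ v ∈ DW, ∃ t : ℝ, ι a - ι b = t • v := by
    rcases hD with hD | hD
    · let g : H → W := fun v => if h : ∃ hv : v ∈ W, (⟨v, hv⟩ : W) ≠ 0 then
        (Projectivization.mk ℝ (⟨v, h.1⟩ : W) h.2).rep else 0
      refine ⟨(D.image g).filter fun v => v ≠ 0, ?_, ?_⟩
      · have hrep : ∀ v ∈ (D.image g).filter (fun v => v ≠ 0), ∃ w : W, ∃ hw : w ≠ 0,
            v = (Projectivization.mk ℝ w hw).rep := by
          intro v hv
          obtain ⟨hv1, hv2⟩ := Finset.mem_filter.1 hv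
          obtain ⟨w, hw, hwv⟩ := Finset.mem_image.1 hv1
          by_cases h : ∃ hv : w ∈ W, (⟨w, hv⟩ : W) ≠ 0
          · refine ⟨⟨w, h.1⟩, h.2, ?_⟩
            rw [← hwv]
            simp only [g, dif_pos h]
          · simp only [g, dif_neg h] at hwv
            exact absurd hwv.symm hv2
        apply powInd_of_card
        · exact fun v hv => (Finset.mem_filter.1 hv).2
        · intro v hv w hw hvw c hc
          apply hvw
          obtain ⟨v', hv', rfl⟩ := hrep v hv
          obtain ⟨w', hw', rfl⟩ := hrep w hw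
          congr 1
          rw [← Projectivization.mk_rep (Projectivization.mk ℝ v' hv'),
            ← Projectivization.mk_rep (Projectivization.mk ℝ w' hw'),
            Projectivization.mk_eq_mk_iff']
          exact ⟨c, hc.symm⟩
        · exact (Finset.card_filter_le _ _).trans (Finset.card_image_le.trans hD)
      · intro a b hab
        obtain ⟨v, hv, t, ht⟩ := hAD a a.2 b b.2
        have hne : (a : H) - b ≠ 0 := sub_ne_zero.2 fun h => hab (Subtype.ext h)
        have ht0 : t ≠ 0 := by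
          rintro rfl
          exact hne (by rw [ht, zero_smul])
        have hv1 : v = t⁻¹ • ((a : H) - b) := by
          rw [ht, smul_smul, inv_mul_cancel₀ ht0, one_smul]
        have hvW : v ∈ W := by
          rw [hv1]
          exact W.smul_mem _ (W.sub_mem (Submodule.subset_span a.2) (Submodule.subset_span b.2))
        have hv0 : (⟨v, hvW⟩ : W) ≠ 0 := by
          intro h
          have h2 : v = 0 := congrArg Subtype.val h
          exact hne (by rw [ht, h2, smul_zero])
        obtain ⟨c, hc⟩ := Projectivization.exists_smul_eq_mk_rep ℝ (⟨v, hvW⟩ : W) hv0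
        have hg : g v = (Projectivization.mk ℝ (⟨v, hvW⟩ : W) hv0).rep := by
          simp only [g, dif_pos (⟨hvW, hv0⟩ : ∃ hv : v ∈ W, (⟨v, hv⟩ : W) ≠ 0)]
        refine ⟨g v, ?_, t * ((c⁻¹ : ℝˣ) : ℝ), ?_⟩
        · rw [Finset.mem_filter, hg]
          exact ⟨hg ▸ Finset.mem_image_of_mem g hv, Projectivization.rep_nonzero _⟩
        · rw [hg, ← hc, Units.smul_def, smul_smul, mul_assoc, Units.inv_mul, mul_one]
          apply Subtype.ext
          exact ht
    · refine ⟨D.subtype (fun v => v ∈ W), ?_, ?_⟩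
      · intro lam hl v hv
        have h1 := hD (fun u => if h : u ∈ W then lam ⟨u, h⟩ else 0) (fun ξ => by
          have h2 := hl (W.orthogonalProjectionOnto ξ)
          refine Eq.trans ?_ h2
          have h3 : ∑ v ∈ D, (if h : v ∈ W then lam ⟨v, h⟩ else 0) * ⟪ξ, v⟫ ^ (2 * k) =
              ∑ v ∈ D.filter (fun v => v ∈ W),
                (if h : v ∈ W then lam ⟨v, h⟩ else 0) * ⟪ξ, v⟫ ^ (2 * k) := by
            rw [Finset.sum_filter]
            apply Finset.sum_congr rfl
            intro v _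
            by_cases h : v ∈ W
            · rw [if_pos h]
            · rw [if_neg h, dif_neg h, zero_mul]
          rw [h3, ← Finset.subtype_map (fun v => v ∈ W), Finset.sum_map]
          apply Finset.sum_congr rfl
          intro v _
          have h4 : (Function.Embedding.subtype fun v => v ∈ W) v = (v : H) := rfl
          rw [h4, dif_pos v.2]
          congr 2
          exact (Submodule.inner_orthogonalProjectionOnto_eq_of_mem_right v ξ).symm) v
          (Finset.mem_subtype.1 hv)
        rw [dif_pos v.2] at h1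
        exact h1
      · intro a b hab
        obtain ⟨v, hv, t, ht⟩ := hAD a a.2 b b.2
        have hne : (a : H) - b ≠ 0 := sub_ne_zero.2 fun h => hab (Subtype.ext h)
        have ht0 : t ≠ 0 := by
          rintro rfl
          exact hne (by rw [ht, zero_smul])
        have hv1 : v = t⁻¹ • ((a : H) - b) := by
          rw [ht, smul_smul, inv_mul_cancel₀ ht0, one_smul]
        have hvW : v ∈ W := by
          rw [hv1]
          exact W.smul_mem _ (W.sub_mem (Submodule.subset_span a.2) (Submodule.subset_span b.2))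
        exact ⟨⟨v, hvW⟩, Finset.mem_subtype.2 hv, t, Subtype.ext ht⟩
  have hind := ind_of_powInd hy hDW
  rw [← hk] at hind
  obtain ⟨S, hS⟩ := exists_linear_finite hX hpt hind
  refine ⟨fun a => S (ι a), Isometry.of_dist_eq fun a b => ?_⟩
  have hab : ‖S (ι a - ι b)‖ = ‖ι a - ι b‖ := by
    by_cases h : a = b
    · rw [h, sub_self, map_zero, norm_zero, norm_zero]
    · obtain ⟨v, hv, t, ht⟩ := hcov a b h
      rw [ht, map_smul, norm_smul, norm_smul, hS v hv]
  rw [dist_eq_norm, ← map_sub, hab]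
  rw [Subtype.dist_eq, dist_eq_norm]
  rfl

end Pool.Agent.Lib.P23d34e.Ev
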